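import Pool.Agent.Lib.MP_8d8c46_lc.EL.Level

/-!
The bilinear bound for random relabellings.
-/

set_option autoImplicit false
set_option linter.unusedSectionVars false

open scoped Classical
open Finset

namespace Pool.Agent.Lib.MP_8d8c46_lc.EL

/-- A finite family of bijections of `A` such that the image of each element is equidistributed. -/
structure Act (Γ A : Type) [Fintype Γ] [Fintype A] where
  act : Γ → A → A
  bij : ∀ γ, Function.Bijective (act γ)
  equi : ∀ (f : A → ℝ) (a : A), avg (fun γ => f (act γ a)) = avg f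

section
variable {U A Γ : Type} [Fintype U] [Fintype A] [Nonempty A] [Fintype Γ] [Nonempty Γ]
  (𝔞 : Act Γ A)

/-- coordinatewise relabelling -/
def ax (w : U → Γ) (y : U → A) (u : U) : A := 𝔞.act (w u) (y u)

lemma ax_update (w : U → Γ) (y : U → A) (u : U) (γ : Γ) :
    ax 𝔞 (Function.update w u γ) y = Function.update (ax 𝔞 w y) u (𝔞.act γ (y u)) := by
  funext v
  by_cases h : v = u
  · subst h; simp [ax]
  · simp [ax, h]

lemma ax_update' (w : U → Γ) (y : U → A) (u : U) (a : A) :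
    ax 𝔞 w (Function.update y u a) = Function.update (ax 𝔞 w y) u (𝔞.act (w u) a) := by
  funext v
  by_cases h : v = u
  · subst h; simp [ax]
  · simp [ax, h]

lemma avg_act (γ : Γ) (f : A → ℝ) : avg (fun a => f (𝔞.act γ a)) = avg f :=
  avg_equiv (Equiv.ofBijective _ (𝔞.bij γ)) f

lemma mz_left {Δ : (U → A) → ℝ} {u : U} (h : MZ u Δ) (y : U → A) :
    MZ u (fun w => Δ (ax 𝔞 w y)) := by
  intro w
  simp only [ax_update]
  rw [𝔞.equi (fun a => Δ (Function.update (ax 𝔞 w y) u a)) (y u)]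
  exact h _

lemma dep_left {Δ : (U → A) → ℝ} {T : Finset U} (h : DepOn T Δ) (y : U → A) :
    DepOn T (fun w => Δ (ax 𝔞 w y)) := fun w w' hw =>
  h _ _ (fun u hu => by unfold ax; rw [hw u hu])

lemma mz_right {Δ : (U → A) → ℝ} {u : U} (h : MZ u Δ) (w : U → Γ) (τ : Equiv.Perm U) :
    MZ (τ u) (fun x => Δ (ax 𝔞 w (x ∘ τ))) := by
  intro x
  have h1 : ∀ a, Function.update x (τ u) a ∘ τ = Function.update (x ∘ τ) u a := by
    intro a
    funext v
    by_cases hv : v = u
    · subst hv; simp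
    · have : τ v ≠ τ u := fun h => hv (τ.injective h)
      simp [hv, this]
  simp only [h1, ax_update']
  rw [avg_act 𝔞 (w u) (fun a => Δ (Function.update (ax 𝔞 w (x ∘ τ)) u a))]
  exact h _

lemma dep_right {Δ : (U → A) → ℝ} {T : Finset U} (h : DepOn T Δ) (w : U → Γ)
    (τ : Equiv.Perm U) : DepOn (T.image τ) (fun x => Δ (ax 𝔞 w (x ∘ τ))) := fun x x' hx =>
  h _ _ (fun u hu => by
    unfold ax
    simp only [Function.comp_apply]
    rw [hx (τ u) (mem_image_of_mem _ hu)])

/-- The bilinear bound. -/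
theorem bil {Δ : (U → A) → ℝ} {T : Finset U} (hd : DepOn T Δ) (hz : ∀ u ∈ T, MZ u Δ)
    {H : ℝ} (hH : ∀ y, |Δ y| ≤ H) (F : (U → Γ) → ℝ) (g : (U → A) → ℝ) (τ : Equiv.Perm U) :
    |avg (fun w => avg (fun x => F w * Δ (ax 𝔞 w (x ∘ τ)) * g x))| ≤
      H * n1 F T * n1 g (T.image τ) := by
  have h1 : avg (fun w => avg (fun x => F w * Δ (ax 𝔞 w (x ∘ τ)) * g x)) =
      avg (fun w => avg (fun x => es F T w * Δ (ax 𝔞 w (x ∘ τ)) * es g (T.image τ) x)) := by
    have e1 : ∀ w, avg (fun x => F w * Δ (ax 𝔞 w (x ∘ τ)) * g x) =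
        avg (fun x => F w * Δ (ax 𝔞 w (x ∘ τ)) * es g (T.image τ) x) := by
      intro w
      have h2 := avg_mul_es (f := g) (dep_right 𝔞 hd w τ) (by
        intro v hv
        obtain ⟨u, hu, rfl⟩ := mem_image.1 hv
        exact mz_right 𝔞 (hz u hu) w τ)
      have e2 : (fun x => F w * Δ (ax 𝔞 w (x ∘ τ)) * g x) =
          fun x => F w * (g x * Δ (ax 𝔞 w (x ∘ τ))) := by funext x; ring
      have e3 : (fun x => F w * Δ (ax 𝔞 w (x ∘ τ)) * es g (T.image τ) x) =
          fun x => F w * (es g (T.image τ) x * Δ (ax 𝔞 w (x ∘ τ))) := by funext x; ring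
      rw [e2, e3, avg_const_mul, avg_const_mul, h2]
    simp only [e1]
    rw [avg_comm2, avg_comm2 (fun w x => es F T w * Δ (ax 𝔞 w (x ∘ τ)) * es g (T.image τ) x)]
    congr 1
    funext x
    have h2 := avg_mul_es (f := F) (dep_left 𝔞 hd (x ∘ τ))
      (fun u hu => mz_left 𝔞 (hz u hu) (x ∘ τ))
    rw [avg_mul_const, avg_mul_const, h2]
  rw [h1]
  refine (abs_avg_le _).trans ?_
  have h3 : ∀ w, |avg (fun x => es F T w * Δ (ax 𝔞 w (x ∘ τ)) * es g (T.image τ) x)| ≤
      H * |es F T w| * n1 g (T.image τ) := by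
    intro w
    refine (abs_avg_le _).trans ?_
    unfold n1
    rw [← avg_const_mul]
    refine avg_mono (fun x => ?_)
    rw [abs_mul, abs_mul]
    refine mul_le_mul_of_nonneg_right ?_ (abs_nonneg _)
    rw [mul_comm H]
    exact mul_le_mul_of_nonneg_left (hH _) (abs_nonneg _)
  refine (avg_mono h3).trans (le_of_eq ?_)
  rw [avg_mul_const, avg_const_mul]
  rfl

end

end Pool.Agent.Lib.MP_8d8c46_lc.EL
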