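import Pool.Agent.Lib.MP_8d8c46_lc.Mg.G022

/-!
Convex programming relaxations of subexponential size with constraints of small dimension do not
solve small-set expansion.
-/

set_option autoImplicit false

open scoped Classical
open Finset

namespace Pool.Agent.Lib.MP_8d8c46_lc.EL

open SA

/-- The numerical conditions. -/
lemma params2 {ε : ℝ} {b a R m : ℕ} (hb : 4 ≤ b) (hba : 4 * b ≤ a) (heps : 32 ≤ ε * 2 ^ (2 ^ b))
    (hR : (R : ℝ) ≤ 2 ^ (2 ^ b)) (hm : m ≤ 2 ^ (b + 1)) :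
    256 * ((m : ℝ) + 1) * ((R : ℝ) * m + 1) * 2 ^ (2 ^ (b + 2)) <
        ε * ((2 ^ (2 ^ (b + 3)) : ℕ) : ℝ) ∧
      4 * ((R : ℝ) * (((2 ^ (2 ^ (b + 3)) : ℕ) : ℝ)) ^ m) ≤ 2 ^ (2 ^ a + 2) ∧
      128 * ((R : ℝ) * m + 1) ≤ ε * 2 ^ (2 ^ (b + 2)) := by
  have hbb : b + 12 ≤ 2 ^ b := by
    obtain ⟨b', rfl⟩ := Nat.exists_eq_add_of_le hb
    have h1 : b' + 1 ≤ 2 ^ b' := Nat.lt_two_pow_self
    rw [pow_add]
    omega
  have h16 : 16 ≤ 2 ^ b := by
    calc 16 = 2 ^ 4 := by norm_num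
      _ ≤ 2 ^ b := Nat.pow_le_pow_right (by norm_num) hb
  obtain ⟨X, hX⟩ : ∃ X : ℕ, X = 2 ^ b := ⟨_, rfl⟩
  have hX2 : 2 ^ (b + 2) = 4 * X := by rw [hX, pow_add]; ring
  have hX3 : 2 ^ (b + 3) = 8 * X := by rw [hX, pow_add]; ring
  rw [hX2, hX3]
  rw [← hX] at hR heps hbb h16
  have hmR : (m : ℝ) ≤ 2 ^ (b + 1) := by exact_mod_cast hm
  have h1 : (1 : ℝ) ≤ 2 ^ (b + 1) := one_le_pow₀ (by norm_num)
  have hm1 : (m : ℝ) + 1 ≤ 2 ^ (b + 2) := by
    have : (2 : ℝ) ^ (b + 2) = 2 ^ (b + 1) + 2 ^ (b + 1) := by rw [pow_succ]; ring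
    linarith
  have hRm : (R : ℝ) * m + 1 ≤ 2 ^ (X + b + 2) := by
    have e1 : (2 : ℝ) ^ (X + b + 2) = 2 ^ X * 2 ^ (b + 1) + 2 ^ X * 2 ^ (b + 1) := by
      rw [show X + b + 2 = (X + (b + 1)) + 1 by ring, pow_succ, pow_add]; ring
    have e2 : (R : ℝ) * m ≤ 2 ^ X * 2 ^ (b + 1) :=
      mul_le_mul hR hmR (Nat.cast_nonneg _) (by positivity)
    have e3 : (1 : ℝ) ≤ 2 ^ X * 2 ^ (b + 1) := by
      have : (1 : ℝ) ≤ 2 ^ X := one_le_pow₀ (by norm_num)
      nlinarith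
    linarith
  have hRm0 : 0 ≤ (R : ℝ) * m + 1 := by positivity
  refine ⟨?_, ?_, ?_⟩
  · have e1 : 256 * ((m : ℝ) + 1) * ((R : ℝ) * m + 1) * 2 ^ (4 * X) ≤
        2 ^ 8 * 2 ^ (b + 2) * 2 ^ (X + b + 2) * 2 ^ (4 * X) := by
      have : (256 : ℝ) = 2 ^ 8 := by norm_num
      rw [this]
      gcongr
    have e2 : (2 : ℝ) ^ 8 * 2 ^ (b + 2) * 2 ^ (X + b + 2) * 2 ^ (4 * X) =
        2 ^ (12 + 2 * b + 5 * X) := by
      rw [← pow_add, ← pow_add, ← pow_add]
      congr 1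
      ring
    have e3 : (2 : ℝ) ^ (12 + 2 * b + 5 * X) ≤ 2 ^ (7 * X) :=
      pow_le_pow_right₀ (by norm_num) (by omega)
    have e4 : ε * ((2 ^ (8 * X) : ℕ) : ℝ) = (ε * 2 ^ X) * 2 ^ (7 * X) := by
      push_cast
      rw [mul_assoc, ← pow_add]
      congr 2
      ring
    have e5 : (0 : ℝ) < 2 ^ (7 * X) := by positivity
    rw [e4]
    rw [e2] at e1
    nlinarith
  · have e1 : (((2 ^ (8 * X) : ℕ) : ℝ)) ^ m ≤ 2 ^ (8 * X * (2 * X)) := by
      push_cast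
      rw [← pow_mul]
      refine pow_le_pow_right₀ (by norm_num) (Nat.mul_le_mul_left _ ?_)
      rw [pow_succ, ← hX] at hm
      linarith
    have e2 : X + 8 * X * (2 * X) ≤ 2 ^ a := by
      have h5 : X ^ 4 ≤ 2 ^ a := by
        rw [hX, ← pow_mul, mul_comm b 4]
        exact Nat.pow_le_pow_right (by norm_num) hba
      refine le_trans ?_ h5
      have h6 : 17 ≤ X * X := by nlinarith
      calc X + 8 * X * (2 * X) ≤ 17 * (X * X) := by nlinarith
        _ ≤ X * X * (X * X) := Nat.mul_le_mul_right _ h6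
        _ = X ^ 4 := by ring
    calc 4 * ((R : ℝ) * (((2 ^ (8 * X) : ℕ) : ℝ)) ^ m) ≤ 4 * (2 ^ X * 2 ^ (8 * X * (2 * X))) := by
          gcongr
      _ = 2 ^ (X + 8 * X * (2 * X) + 2) := by
          rw [← pow_add, pow_add _ _ 2]; ring
      _ ≤ 2 ^ (2 ^ a + 2) := pow_le_pow_right₀ (by norm_num) (by omega)
  · have e1 : 128 * ((R : ℝ) * m + 1) ≤ 2 ^ 7 * 2 ^ (X + b + 2) := by
      have : (128 : ℝ) = 2 ^ 7 := by norm_num
      rw [this]
      gcongr
    have e2 : (2 : ℝ) ^ 7 * 2 ^ (X + b + 2) = 2 ^ (9 + b + X) := by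
      rw [← pow_add]; congr 1; ring
    have e3 : (2 : ℝ) ^ (9 + b + X) ≤ 2 ^ (3 * X) := pow_le_pow_right₀ (by norm_num) (by omega)
    have e4 : ε * 2 ^ (4 * X) = (ε * 2 ^ X) * 2 ^ (3 * X) := by
      rw [mul_assoc, ← pow_add]
      congr 2
      ring
    have e5 : (0 : ℝ) < 2 ^ (3 * X) := by positivity
    rw [e4]
    rw [e2] at e1
    nlinarith

/-- Convex programming relaxations of subexponential size do not solve small-set expansion. -/
theorem main_cv {p q : ℕ} (hp : 1 ≤ p) (hpq : p ≤ q) {η δ : ℚ} (hδ : δ = p / q) (hη : δ < η) :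
    ∃ d₀ : ℕ, ∀ d ≥ d₀, ∀ ε : ℝ, 0 < ε → ∃ c : ℝ, 0 < c ∧ ∃ N₀ : ℕ, ∀ N ≥ N₀,
      ∀ (V : Type) [Fintype V], Fintype.card V = 2 * d * q * N →
        (∃ G : SimpleGraph V, Regular G d ∧ SSEYes 0 δ G) ∧
        (∃ G : SimpleGraph V, Regular G d ∧ SSENo η δ G) ∧
        ∀ P : ConvexRelaxation V δ d, P.Separates ε η → (P.dim : ℝ) ≤ (Fintype.card V : ℝ) ^ c →
          (2 : ℝ) ^ ((Fintype.card V : ℝ) ^ c) < P.size := by
  have hq : 0 < q := by omega
  have : NeZero q := ⟨hq.ne'⟩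
  have hq' : (0 : ℝ) < q := by exact_mod_cast hq
  have hp' : (0 : ℝ) < p := by exact_mod_cast hp
  have hηR : (p : ℝ) / q < (η : ℝ) := by
    have : ((δ : ℚ) : ℝ) < (η : ℝ) := by exact_mod_cast hη
    rw [hδ] at this
    push_cast at this
    exact this
  obtain ⟨κ, hκ⟩ : ∃ κ : ℝ, κ = ((p : ℝ) / q * (η - p / q)) ^ 2 / 68 := ⟨_, rfl⟩
  have hκ0 : 0 < κ := by
    rw [hκ]
    have : 0 < (η : ℝ) - p / q := by linarith
    positivity
  obtain ⟨d₁, hd₁⟩ := exists_nat_ge ((2 * q + 1) / κ)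
  refine ⟨max d₁ 1, fun d hd ε hε => ?_⟩
  have hd1 : 1 ≤ d := (le_max_right _ _).trans hd
  have hdκ : 2 * q + 1 ≤ d * κ := by
    rw [div_le_iff₀ hκ0] at hd₁
    refine hd₁.trans (mul_le_mul_of_nonneg_right ?_ hκ0.le)
    exact_mod_cast (le_max_left _ _).trans hd
  obtain ⟨r, τ, hr0, hr1, hτ, hrτ⟩ := exists_rho hq (by linarith : 0 < ε / 4)
  obtain ⟨ρ, hρ⟩ : ∃ ρ : ℝ, ρ = r ^ 4 := ⟨_, rfl⟩
  have hρ0 : 0 ≤ ρ := by rw [hρ]; positivity
  have hρ1 : ρ < 1 := by rw [hρ]; exact pow_lt_one₀ hr0.le hr1 (by norm_num)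
  rw [← hρ] at hrτ
  obtain ⟨E, hE⟩ : ∃ E : ℕ, E = 2 * (4 * d + 1) ^ 2 := ⟨_, rfl⟩
  have hE2 : 50 ≤ E := by
    rw [hE]
    have h1 : 5 ≤ 4 * d + 1 := by omega
    have h2 := Nat.pow_le_pow_left h1 2
    omega
  -- the alphabet and the group
  have hne : Nonempty (Sb (ZMod q) p) := nonempty_sb (by rw [ZMod.card]; exact hpq)
  obtain ⟨A, hA⟩ : ∃ A : ℝ, A = Fintype.card (Sb (ZMod q) p) := ⟨_, rfl⟩
  obtain ⟨Γ, hΓ⟩ : ∃ Γ : ℝ, Γ = Fintype.card (Equiv.Perm (ZMod q)) := ⟨_, rfl⟩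
  have hA1 : 1 ≤ A := by rw [hA]; exact_mod_cast Fintype.card_pos
  have hΓ1 : 1 ≤ Γ := by rw [hΓ]; exact_mod_cast Fintype.card_pos
  obtain ⟨y, hy⟩ : ∃ y : ℝ, y = min (1 / 6) (ε / 128) := ⟨_, rfl⟩
  have hy0 : 0 < y := by rw [hy]; exact lt_min (by norm_num) (by positivity)
  have hy6 : 6 * y ≤ 1 := by
    have : y ≤ 1 / 6 := by rw [hy]; exact min_le_left _ _
    linarith
  have hyε : 64 * y < ε := by
    have : y ≤ ε / 128 := by rw [hy]; exact min_le_right _ _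
    linarith
  obtain ⟨m, hm1, hm2, hm3⟩ := exists_m (A := A) (Γ := Γ) hρ0 hρ1
  obtain ⟨b₀, hb₀⟩ := Filter.eventually_atTop.1 (p_eps hε)
  obtain ⟨a₁, ha₁⟩ := Filter.eventually_atTop.1 ((Filter.eventually_ge_atTop 1).and
    ((p_rounds (d := d) hq hρ0 hρ1 hm2).and ((p_main hA1 hΓ1 hy0 hm3).and
    ((p_fin (m := m) (C := ((2 * d * E : ℕ) : ℝ)) (by
      have : 1 ≤ 2 * d * E := Nat.mul_pos (by omega) (by omega)
      exact_mod_cast this) hΓ1 hy0 hy6).and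
    (p_del (q := q) hm1 (by linarith : 0 < ε / 4 / 2))))))
  obtain ⟨a₀, ha₀'⟩ : ∃ a₀ : ℕ, a₀ = a₁ + 4 * (b₀ + 4) := ⟨_, rfl⟩
  -- the exponent
  obtain ⟨b, hb⟩ : ∃ b : ℝ, b = ((2 * d * q * E : ℕ) : ℝ) := ⟨_, rfl⟩
  have hb1 : 1 < b := by
    rw [hb]
    have : 1 < 2 * d * q * E := by
      have h1 : 1 ≤ 2 * d * q := Nat.mul_pos (by omega) hq
      calc 1 < E := by omega
        _ = 1 * E := (one_mul E).symm
        _ ≤ 2 * d * q * E := Nat.mul_le_mul_right _ h1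
    exact_mod_cast this
  have hlogb : 0 < Real.log b := Real.log_pos hb1
  have hm0 : (0 : ℝ) < m := by exact_mod_cast hm1
  obtain ⟨c, hc⟩ : ∃ c : ℝ, c = Real.log 2 / (2 * m * Real.log b) / 8 := ⟨_, rfl⟩
  have hlog2 : 0 < Real.log 2 := Real.log_pos (by norm_num)
  have hc0 : 0 < c := by rw [hc]; positivity
  refine ⟨c, hc0, E ^ (m * (a₀ + 1)), fun N hN V _ hV => ?_⟩
  -- the girth parameter
  obtain ⟨L, hL⟩ : ∃ L : ℕ, L = Nat.log E N := ⟨_, rfl⟩
  obtain ⟨a, ha⟩ : ∃ a : ℕ, a = L / m := ⟨_, rfl⟩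
  have hN0 : 0 < N := lt_of_lt_of_le (by positivity) hN
  have hLa : m * (a₀ + 1) ≤ L := by
    rw [hL]
    exact Nat.le_log_of_pow_le (by omega) hN
  have haa : a₀ ≤ a := by
    rw [ha, Nat.le_div_iff_mul_le (by omega)]
    calc a₀ * m ≤ m * (a₀ + 1) := by
          rw [mul_comm]; exact Nat.mul_le_mul_left _ (Nat.le_succ _)
      _ ≤ L := hLa
  have hL1 : m * a ≤ L := by rw [ha]; exact Nat.mul_div_le L m
  have hL2 : L < m * (a + 1) := by
    rw [ha, mul_comm]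
    exact Nat.lt_mul_of_div_lt (Nat.lt_succ_self _) (by omega)
  obtain ⟨ha1, hround, hmain, hfin, hdel⟩ := ha₁ a (by omega)
  obtain ⟨β, hβ⟩ : ∃ β : ℕ, β = a / 4 := ⟨_, rfl⟩
  have hβ1 : 4 * β ≤ a := by omega
  have hβ2 : a ≤ 8 * β := by omega
  have hβ4 : 4 ≤ β := by omega
  have heps := hb₀ β (by omega)
  have hround := hround L hL1 hL2
  have hmain := hmain L hL1
  have hfin := hfin L hL2
  have hdel := hdel L hL1
  have hLpos : 1 ≤ L := by
    calc 1 = 1 * 1 := rfl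
      _ ≤ m * a := Nat.mul_le_mul hm1 ha1
      _ ≤ L := hL1
  have hEL : E ^ L ≤ N := by
    rw [hL]
    exact Nat.pow_log_le_self E (by omega)
  have hEL1 : N ≤ E ^ (L + 1) := by
    rw [hL]
    exact (Nat.lt_pow_succ_log_self (by omega) N).le
  have hMN : 2 * (2 * L) ≤ N := by
    refine le_trans ?_ hEL
    have h1 : L < 2 ^ L := Nat.lt_two_pow_self
    have h2 : 4 ≤ 4 ^ L := by
      calc 4 = 4 ^ 1 := by norm_num
        _ ≤ 4 ^ L := Nat.pow_le_pow_right (by norm_num) hLpos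
    have h3 : (4 * 2) ^ L ≤ E ^ L := Nat.pow_le_pow_left (by omega) _
    rw [mul_pow] at h3
    calc 2 * (2 * L) = 4 * L := by ring
      _ ≤ 4 ^ L * 2 ^ L := Nat.mul_le_mul h2 h1.le
      _ ≤ E ^ L := h3
  obtain ⟨ω, hω1, hω2⟩ := exists_good (d := d) (N := N) (q := q) (p := p) (M := 2 * L)
    (by omega) hMN hd1 hηR hκ hdκ
  have hcardB : Fintype.card (BV d N) = 2 * d * N := by
    rw [Fintype.card_prod, Fintype.card_prod, Fintype.card_bool, Fintype.card_fin,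
      Fintype.card_fin]
    ring
  have hcard : Fintype.card (BV d N × ZMod q) = 2 * d * q * N := by
    rw [Fintype.card_prod, hcardB, ZMod.card]
    ring
  have hcardB0 : 0 < Fintype.card (BV d N) := by rw [hcardB]; positivity
  have hreg : Regular (SA.lift (Bg ω) (shf ω) (shf_symm ω)) d := by
    intro v
    have := dg_lift (B := Bg ω) (sh := shf ω) (hsh := shf_symm ω) v
    rw [dg_Bg] at this
    exact this
  have hqQ : (q : ℚ) ≠ 0 := by exact_mod_cast hq.ne'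
  have hsizeQ : δ * (Fintype.card (BV d N × ZMod q) : ℚ) = ((2 * d * N * p : ℕ) : ℚ) := by
    rw [hδ, hcard]
    push_cast
    field_simp
  have hno : SSENo η δ (SA.lift (Bg ω) (shf ω) (shf_symm ω)) := by
    refine ⟨d, ⟨hd1, hreg, 2 * d * N * p, by positivity, hsizeQ.symm⟩, fun S hS => ?_⟩
    have hS' : S.card = 2 * d * N * p := by
      rw [hsizeQ] at hS
      exact_mod_cast hS
    rw [le_expansion_iff hreg hd1 (by rw [hS']; positivity)]
    have h3 := hω1 S hS'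
    have h4 : ((inside (SA.lift (Bg ω) (shf ω) (shf_symm ω)) S : ℚ) : ℝ) ≤
        ((η * (d * S.card) : ℚ) : ℝ) := by
      push_cast
      exact h3
    exact_mod_cast h4
  have hVc : Fintype.card V = Fintype.card (BV d N × ZMod q) := by rw [hV, hcard]
  obtain ⟨e₀⟩ : Nonempty (BV d N × ZMod q ≃ V) := Fintype.card_eq.1 hVc.symm
  have h00 : ∀ x y : BV d N, (0 : ZMod q) = -0 := fun _ _ => neg_zero.symm
  have hyes := yes_lift hpq hp (dg_Bg ω) hd1 hcardB0 hδ h00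
  refine ⟨⟨(SA.lift (Bg ω) (fun _ _ => (0 : ZMod q)) h00).comap e₀.symm,
    regular_comap e₀ (fun v => ?_), yes_comap e₀ hyes⟩,
    ⟨(SA.lift (Bg ω) (shf ω) (shf_symm ω)).comap e₀.symm, regular_comap e₀ hreg,
      no_comap e₀ hno⟩, fun P hP hdim => ?_⟩
  · have := dg_lift (B := Bg ω) (sh := fun _ _ => (0 : ZMod q)) (hsh := h00) v
    rw [dg_Bg] at this
    exact this
  by_contra hcon
  rw [not_lt] at hcon
  -- the pseudo-expectation
  have hNB := NB_Bs ω (2 * L)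
  have hds : ∀ v, dg (Bs ω (2 * L)) v ≤ d := by
    intro v
    exact (dg_mono (Bs_le ω _) v).trans (dg_Bg ω v).le
  have h8a : 8 ≤ 8 ^ a := by
    calc 8 = 8 ^ 1 := by norm_num
      _ ≤ 8 ^ a := Nat.pow_le_pow_right (by norm_num) ha1
  have hk2 : 2 ≤ 8 ^ a := by omega
  have hK := kok (hsh := shf_symm ω) (k := 8 ^ a) hLpos hNB hds hρ0 hρ1 hround
  have hdele := deleted (q := q) (d := d) (E := E) (L := L) (N := N) hd1 hLpos hE hEL hω2 hdel
  have hps := pseudo_le (B := Bg ω) (B' := Bs ω (2 * L)) (hsh := shf_symm ω) (Bs_le ω _) hLpos hNB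
    (dg_Bg ω) hk2 hpq hp hd1 hρ0 hρ1 hτ hround hcardB0
  have hps' := hps.trans (show _ ≤ ε / 4 by rw [hcardB]; linarith)
  -- the parameters
  have hUR : (0 : ℝ) < Fintype.card (BV d N) := by exact_mod_cast hcardB0
  have hnN : N ≤ Fintype.card (BV d N) := by
    rw [hcardB]; exact Nat.le_mul_of_pos_left _ (by positivity)
  have hs1 : ((2 : ℝ) * (1 + d)) ^ L ≤ √(Fintype.card (BV d N)) := by
    apply Real.le_sqrt_of_sq_le
    have h1 : ((2 * (1 + d)) ^ 2) ^ L ≤ E ^ L := by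
      refine Nat.pow_le_pow_left ?_ _
      rw [hE]
      calc (2 * (1 + d)) ^ 2 ≤ (4 * d + 1) ^ 2 := Nat.pow_le_pow_left (by omega) 2
        _ ≤ 2 * (4 * d + 1) ^ 2 := by omega
    have h2 : ((2 * (1 + d)) ^ L) ^ 2 ≤ Fintype.card (BV d N) := by
      rw [← pow_mul, mul_comm L 2, pow_mul]
      exact h1.trans (hEL.trans hnN)
    exact_mod_cast h2
  have h2d : (1 : ℝ) ≤ (2 * (1 + d)) ^ L := by
    refine one_le_pow₀ ?_
    have : (0 : ℝ) ≤ d := Nat.cast_nonneg _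
    linarith
  have hs0 : 0 < √(Fintype.card (BV d N) : ℝ) := Real.sqrt_pos.2 hUR
  have h3D : 2 ^ a + 2 ≤ 8 ^ a := by
    have h1 : 8 ^ a = 2 ^ a * 4 ^ a := by rw [← mul_pow]; norm_num
    have h4 : 4 ≤ 4 ^ a := by
      calc 4 = 4 ^ 1 := by norm_num
        _ ≤ 4 ^ a := Nat.pow_le_pow_right (by norm_num) ha1
    have h5 : (1 : ℕ) ≤ 2 ^ a := Nat.one_le_two_pow
    rw [h1]
    calc 2 ^ a + 2 ≤ 2 ^ a * 4 := by omega
      _ ≤ 2 ^ a * 4 ^ a := Nat.mul_le_mul_left _ h4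
  have hMle : (2 : ℝ) ^ (2 ^ (β + 3)) ≤ 2 ^ (2 ^ (a + 2)) :=
    pow_le_pow_right₀ (by norm_num) (Nat.pow_le_pow_right (by norm_num) (by omega))
  have hpar : Par (BV d N) (Sb (ZMod q) p) (Equiv.Perm (ZMod q))
      (fun u v => (Bs ω (2 * L)).edist u v ≤ L) (8 ^ a) ((1 + d) ^ L) (8 ^ a) (a + 2)
      (2 ^ a + 2) (√(Fintype.card (BV d N))) y (2 ^ (2 ^ (β + 3))) := by
    refine ⟨Nat.one_le_pow _ _ (by omega), ?_, fun u => by convert card_ball hds u L, ?_, ?_, le_refl _, h3D, ?_, ?_,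
      hy0, hy6, ?_, ?_, hMle, ?_⟩
    · intro u v h
      rw [SimpleGraph.edist_comm]; exact h
    · exact h2d.trans hs1
    · exact Real.sq_sqrt hUR.le
    · have h1 : (8 : ℕ) ^ a * 4 ≤ 50 ^ a := by
        have h2 : (50 : ℕ) ^ a ≥ (8 * 6) ^ a := Nat.pow_le_pow_left (by norm_num) _
        have h3 : 4 ≤ 6 ^ a := by
          calc 4 ≤ 6 ^ 1 := by norm_num
            _ ≤ 6 ^ a := Nat.pow_le_pow_right (by norm_num) ha1
        rw [mul_pow] at h2
        exact (Nat.mul_le_mul_left _ h3).trans h2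
      have h4 : (50 : ℕ) ^ a ≤ N := by
        calc (50 : ℕ) ^ a ≤ 50 ^ L := by
              refine Nat.pow_le_pow_right (by norm_num) (le_trans ?_ hL1)
              exact Nat.le_mul_of_pos_left _ (by omega)
          _ ≤ E ^ L := Nat.pow_le_pow_left hE2 _
          _ ≤ N := hEL
      omega
    · rw [pow_add]
      have h5 : (1 : ℕ) ≤ 2 ^ a := Nat.one_le_two_pow
      omega
    · rw [← hA, ← hΓ]
      refine le_trans ?_ hmain
      have h1 : ((8 ^ a : ℕ) : ℝ) * (((1 + d) ^ L : ℕ) : ℝ) * √(Fintype.card (BV d N)) *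
          (4 / Fintype.card (BV d N)) ≤ 8 ^ a * 4 * (1 / 2) ^ L := by
        have h2 : √(Fintype.card (BV d N) : ℝ) / Fintype.card (BV d N) =
            1 / √(Fintype.card (BV d N)) := by
          rw [div_eq_div_iff hUR.ne' hs0.ne', one_mul, Real.mul_self_sqrt hUR.le]
        have h3 : ((1 : ℝ) + d) ^ L * (1 / √(Fintype.card (BV d N))) ≤ (1 / 2) ^ L := by
          rw [mul_one_div, div_le_iff₀ hs0]
          calc ((1 : ℝ) + d) ^ L = (1 / 2) ^ L * (2 * (1 + d)) ^ L := by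
                rw [← mul_pow]; congr 1; ring
            _ ≤ (1 / 2) ^ L * √(Fintype.card (BV d N)) :=
                mul_le_mul_of_nonneg_left hs1 (by positivity)
        push_cast
        calc (8 : ℝ) ^ a * (1 + d) ^ L * √(Fintype.card (BV d N)) *
              (4 / Fintype.card (BV d N))
            = 8 ^ a * 4 * ((1 + d) ^ L *
              (√(Fintype.card (BV d N)) / Fintype.card (BV d N))) := by ring
          _ = 8 ^ a * 4 * ((1 + d) ^ L * (1 / √(Fintype.card (BV d N)))) := by rw [h2]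
          _ ≤ _ := mul_le_mul_of_nonneg_left h3 (by positivity)
      have hA0 : 0 ≤ A := by linarith
      have hΓ0 : 0 ≤ Γ := by linarith
      gcongr
    · exact one_le_pow₀ (by norm_num)
    · refine le_trans ?_ (hfin (Fintype.card (BV d N)) hUR.le ?_)
      · rw [hΓ]
        have hy0' := hy0.le
        gcongr
      · rw [hcardB]
        have h1 : 2 * d * N ≤ (2 * d * E) ^ (L + 1) := by
          rw [mul_pow]
          refine Nat.mul_le_mul ?_ hEL1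
          calc 2 * d = (2 * d) ^ 1 := (pow_one _).symm
            _ ≤ (2 * d) ^ (L + 1) := Nat.pow_le_pow_right (by omega) (by omega)
        exact_mod_cast h1
  -- the size
  have hVb : (Fintype.card V : ℝ) ^ c ≤ 2 ^ β := by
    have h1 : (Fintype.card V : ℝ) ≤ b ^ (2 * m * a) := by
      have h2 : Fintype.card V ≤ (2 * d * q * E) ^ (2 * m * a) := by
        rw [hV]
        calc 2 * d * q * N ≤ 2 * d * q * E ^ (L + 1) := Nat.mul_le_mul_left _ hEL1
          _ ≤ (2 * d * q) ^ (L + 1) * E ^ (L + 1) := by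
              refine Nat.mul_le_mul_right _ ?_
              calc 2 * d * q = (2 * d * q) ^ 1 := (pow_one _).symm
                _ ≤ (2 * d * q) ^ (L + 1) :=
                  Nat.pow_le_pow_right (Nat.mul_pos (by omega) hq) (by omega)
          _ = (2 * d * q * E) ^ (L + 1) := (mul_pow _ _ _).symm
          _ ≤ (2 * d * q * E) ^ (2 * m * a) := by
              refine Nat.pow_le_pow_right ?_ ?_
              · exact Nat.mul_pos (Nat.mul_pos (by omega) hq) (by omega)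
              · have h5 : m * 1 ≤ m * a := Nat.mul_le_mul_left _ ha1
                calc L + 1 ≤ m * (a + 1) := hL2
                  _ = m * a + m * 1 := by ring
                  _ ≤ m * a + m * a := Nat.add_le_add_left h5 _
                  _ = 2 * m * a := by ring
      rw [hb]
      exact_mod_cast h2
    calc (Fintype.card V : ℝ) ^ c ≤ (b ^ (2 * m * a)) ^ c :=
          Real.rpow_le_rpow (Nat.cast_nonneg _) h1 hc0.le
      _ = (2 : ℝ) ^ ((a : ℝ) / 8) := by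
          rw [← Real.rpow_natCast, ← Real.rpow_mul (by linarith),
            Real.rpow_def_of_pos (by linarith), Real.rpow_def_of_pos (by norm_num)]
          have h3 : Real.log b * (((2 * m * a : ℕ) : ℝ) * c) = Real.log 2 * ((a : ℝ) / 8) := by
            rw [hc]
            push_cast
            field_simp
          rw [h3]
      _ ≤ (2 : ℝ) ^ ((β : ℕ) : ℝ) := by
          refine Real.rpow_le_rpow_of_exponent_le (by norm_num) ?_
          rw [div_le_iff₀ (by norm_num)]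
          exact_mod_cast (by omega : a ≤ β * 8)
      _ = 2 ^ β := Real.rpow_natCast 2 β
  have hsize : (P.size : ℝ) ≤ 2 ^ (2 ^ β) := by
    refine hcon.trans ?_
    calc (2 : ℝ) ^ ((Fintype.card V : ℝ) ^ c) ≤ (2 : ℝ) ^ ((2 : ℝ) ^ β) :=
          Real.rpow_le_rpow_of_exponent_le (by norm_num) hVb
      _ = 2 ^ (2 ^ β) := by
          rw [← Real.rpow_natCast 2 (2 ^ β)]
          push_cast
          rfl
  have hdimβ : P.dim ≤ 2 ^ β := by exact_mod_cast hdim.trans hVb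
  have hm' : P.dim + 1 ≤ 2 ^ (β + 1) := by
    have : 1 ≤ 2 ^ β := Nat.one_le_two_pow
    rw [pow_succ]
    omega
  have hM : √((2 : ℝ) ^ (2 ^ (β + 3))) = 2 ^ (2 ^ (β + 2)) := by
    have h1 : (2 : ℝ) ^ (2 ^ (β + 3)) = (2 ^ (2 ^ (β + 2))) ^ 2 := by
      rw [← pow_mul]
      congr 1
    rw [h1, Real.sqrt_sq (by positivity)]
  obtain ⟨g1, g2, g3⟩ := params2 (m := 2 ^ (β + 1)) hβ4 hβ1 heps hsize le_rfl
  exact relax_contra2 hpq hK hk2 hreg hno hδ hpar hyε hps' hVc P hP hm' (by rw [hM]; exact g1) g2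
    (by rw [hM]; exact g3)

end Pool.Agent.Lib.MP_8d8c46_lc.EL
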