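import Pool.Agent.Lib.MP_8d8c46_lc.Problem

/-!
Convex programming relaxations for small-set expansion.
-/

open scoped Classical
open Finset

namespace Pool.Agent.Lib.MP_8d8c46_lc

/-- A convex programming relaxation for finding a set `S` of `δ|V|` vertices of small expansion in
a `d`-regular graph on `V`. The feasible region is given by `size` constraints in `vars` real
variables and does not depend on the graph; the `i`-th constraint says that the image of the point
`y` under the linear map with the `dim × vars` matrix `A i` lies in the closed convex set `K i`.
Every set `S` of `δ|V|` vertices is mapped to a feasible point, and the graph `G` enters only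
through an affine objective function whose value at the point of `S` is the expansion of `S` in
`G`. -/
structure ConvexRelaxation (V : Type) [Fintype V] (δ : ℚ) (d : ℕ) where
  vars : ℕ
  size : ℕ
  dim : ℕ
  A : Fin size → Fin dim → Fin vars → ℝ
  K : Fin size → Set (Fin dim → ℝ)
  convex : ∀ i, Convex ℝ (K i)
  closed : ∀ i, IsClosed (K i)
  point : Finset V → Fin vars → ℝ
  feasible : ∀ S : Finset V, (S.card : ℚ) = δ * Fintype.card V →
    ∀ i, (fun j => ∑ t, A i j t * point S t) ∈ K i
  obj : SimpleGraph V → Fin vars → ℝ
  const : SimpleGraph V → ℝ
  exact : ∀ G : SimpleGraph V, Regular G d → ∀ S : Finset V,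
    (S.card : ℚ) = δ * Fintype.card V →
    ∑ t, obj G t * point S t + const G = (expansion G d S : ℝ)

/-- The relaxation separates the `d`-regular graphs on `V` which have a set of `δ|V|` vertices of
expansion at most `ε` from the `d`-regular No instances of `SSE(η, δ)` on `V`: the objective
exceeds `ε` on all of the feasible region for every No instance. (For a graph with a set of
expansion at most `ε` the point of that set has objective value at most `ε`.) -/
def ConvexRelaxation.Separates {V : Type} [Fintype V] {δ : ℚ} {d : ℕ}
    (P : ConvexRelaxation V δ d) (ε : ℝ) (η : ℚ) : Prop :=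
  ∀ G : SimpleGraph V, Regular G d → SSENo η δ G → ∀ y : Fin P.vars → ℝ,
    (∀ i, (fun j => ∑ t, P.A i j t * y t) ∈ P.K i) → ε < ∑ t, P.obj G t * y t + P.const G

end Pool.Agent.Lib.MP_8d8c46_lc
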