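import Pool.Agent.Lib.MP_8d8c46_lc.Mg.G018

/-!
The main part: a set of relabellings with some prescribed values that is otherwise spread.
-/

set_option autoImplicit false
set_option linter.unusedSectionVars false

open scoped Classical
open Finset

namespace Pool.Agent.Lib.MP_8d8c46_lc.EL

section
variable {U A Γ : Type} [Fintype U] [Fintype A] [Nonempty A] [Fintype Γ] [Nonempty Γ]

/-- the indicator of a set of relabellings -/
noncomputable def In (𝒜 : Finset (Equiv.Perm U × (U → Γ))) (τ : Equiv.Perm U) (w : U → Γ) : ℝ :=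
  if (τ, w) ∈ 𝒜 then 1 else 0

/-- the indicator with the coordinates in `I` fixed -/
noncomputable def Fb (𝒜 : Finset (Equiv.Perm U × (U → Γ))) (I : Finset U) (b : U → Γ)
    (τ : Equiv.Perm U) (w : U → Γ) : ℝ := In 𝒜 τ (mx I b w)

/-- its mean -/
noncomputable def zz (𝒜 : Finset (Equiv.Perm U × (U → Γ))) (I : Finset U) (b : U → Γ)
    (τ : Equiv.Perm U) : ℝ := avg (Fb 𝒜 I b τ)

/-- the probability that the coordinates in `I` are as prescribed -/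
noncomputable def kap (I : Finset U) (b : U → Γ) : ℝ :=
  avg (fun w : U → Γ => if ∀ u ∈ I, w u = b u then (1 : ℝ) else 0)

lemma In_nonneg (𝒜 : Finset (Equiv.Perm U × (U → Γ))) (τ : Equiv.Perm U) (w : U → Γ) :
    0 ≤ In 𝒜 τ w := by unfold In; split_ifs <;> norm_num

lemma In_le_one (𝒜 : Finset (Equiv.Perm U × (U → Γ))) (τ : Equiv.Perm U) (w : U → Γ) :
    In 𝒜 τ w ≤ 1 := by unfold In; split_ifs <;> norm_num

lemma In_sq (𝒜 : Finset (Equiv.Perm U × (U → Γ))) (τ : Equiv.Perm U) (w : U → Γ) :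
    In 𝒜 τ w ^ 2 = In 𝒜 τ w := by unfold In; split_ifs <;> norm_num

variable {𝒜 : Finset (Equiv.Perm U × (U → Γ))} {I : Finset U} {τ₀ : Equiv.Perm U} {b : U → Γ}

lemma zz_nonneg (τ : Equiv.Perm U) : 0 ≤ zz 𝒜 I b τ := avg_nonneg (fun _ => In_nonneg _ _ _)

lemma kap_nonneg : 0 ≤ kap I b := by
  refine avg_nonneg (fun w => ?_)
  split_ifs <;> norm_num

lemma kap_pos : 0 < kap I b := by
  unfold kap avg
  have hc : (0 : ℝ) < Fintype.card (U → Γ) := by exact_mod_cast Fintype.card_pos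
  refine div_pos ?_ hc
  refine sum_pos' (fun w _ => by split_ifs <;> norm_num) ⟨b, mem_univ _, ?_⟩
  rw [if_pos (fun _ _ => rfl)]
  norm_num

/-- Averages against the indicator. -/
lemma avg_In (h𝒜 : ∀ ω ∈ 𝒜, ∀ u ∈ I, ω.1 u = τ₀ u ∧ ω.2 u = b u) (τ : Equiv.Perm U)
    (G : (U → Γ) → ℝ) : avg (fun w => In 𝒜 τ w * G w) =
      kap I b * avg (fun w => Fb 𝒜 I b τ w * G (mx I b w)) := by
  rw [← avg_mx I (fun w => In 𝒜 τ w * G w)]
  unfold kap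
  rw [← avg_mul_const]
  congr 1
  funext w'
  split_ifs with h
  · rw [one_mul]
    congr 1; funext w
    have : mx I w' w = mx I b w := mx_congr h
    rw [this]
    rfl
  · rw [zero_mul]
    have h1 : (fun w => In 𝒜 τ (mx I w' w) * G (mx I w' w)) = fun _ => 0 := by
      funext w
      have : In 𝒜 τ (mx I w' w) = 0 := by
        unfold In
        rw [if_neg]
        intro hmem
        apply h
        intro u hu
        have := (h𝒜 _ hmem u hu).2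
        simp only [mx, if_pos hu] at this
        exact this
      rw [this, zero_mul]
    rw [h1, avg_const]

lemma avg_In_one (h𝒜 : ∀ ω ∈ 𝒜, ∀ u ∈ I, ω.1 u = τ₀ u ∧ ω.2 u = b u) (τ : Equiv.Perm U) :
    avg (In 𝒜 τ) = kap I b * zz 𝒜 I b τ := by
  have := avg_In h𝒜 τ (fun _ => 1)
  simp only [mul_one] at this
  exact this

lemma zz_eq_zero (h𝒜 : ∀ ω ∈ 𝒜, ∀ u ∈ I, ω.1 u = τ₀ u ∧ ω.2 u = b u) {τ : Equiv.Perm U}
    (hτ : ¬ ∀ u ∈ I, τ u = τ₀ u) : Fb 𝒜 I b τ = fun _ => 0 := by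
  funext w
  unfold Fb In
  rw [if_neg]
  intro hmem
  exact hτ (fun u hu => (h𝒜 _ hmem u hu).1)

lemma Fb_eq_zero {τ : Equiv.Perm U} (hz : zz 𝒜 I b τ = 0) : Fb 𝒜 I b τ = fun _ => 0 := by
  have h1 : ∑ w, Fb 𝒜 I b τ w = 0 := by
    rw [← card_mul_avg]
    have : avg (Fb 𝒜 I b τ) = 0 := hz
    have h2 : avg (fun w => Fb 𝒜 I b τ w) = 0 := this
    rw [h2, mul_zero]
  have h3 : ∀ w ∈ (univ : Finset (U → Γ)), 0 ≤ Fb 𝒜 I b τ w := fun w _ => In_nonneg _ _ _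
  rw [sum_eq_zero_iff_of_nonneg h3] at h1
  funext w
  exact h1 w (mem_univ w)

lemma n1_zero (T : Finset U) : n1 (fun _ : U → Γ => (0 : ℝ)) T = 0 := by
  unfold n1
  have h1 : ∀ w, es (fun _ : U → Γ => (0 : ℝ)) T w = 0 := by
    intro w
    unfold es cd
    refine sum_eq_zero (fun S _ => ?_)
    rw [avg_const, mul_zero]
  simp only [h1, abs_zero]
  exact avg_const 0

/-- the number of relabellings in terms of the means -/
lemma sum_zz (h𝒜 : ∀ ω ∈ 𝒜, ∀ u ∈ I, ω.1 u = τ₀ u ∧ ω.2 u = b u) (𝒬 : Finset (Equiv.Perm U)) :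
    (Fintype.card (U → Γ) : ℝ) * kap I b * ∑ τ ∈ 𝒬, zz 𝒜 I b τ =
      ((𝒜.filter (fun ω => ω.1 ∈ 𝒬)).card : ℝ) := by
  have h1 : ∀ τ, (Fintype.card (U → Γ) : ℝ) * (kap I b * zz 𝒜 I b τ) = ∑ w, In 𝒜 τ w := by
    intro τ
    rw [← avg_In_one h𝒜 τ]
    exact card_mul_avg _
  rw [mul_assoc, mul_sum, mul_sum, sum_congr rfl (fun τ _ => h1 τ)]
  unfold In
  rw [← sum_product', ← sum_filter, sum_const, nsmul_eq_mul, mul_one]
  congr 1
  congr 1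
  ext ω
  simp only [mem_filter, mem_product, mem_univ, and_true]
  tauto

lemma sum_zz_univ (h𝒜 : ∀ ω ∈ 𝒜, ∀ u ∈ I, ω.1 u = τ₀ u ∧ ω.2 u = b u) :
    (Fintype.card (U → Γ) : ℝ) * kap I b * ∑ τ, zz 𝒜 I b τ = (𝒜.card : ℝ) := by
  rw [sum_zz h𝒜 univ]
  congr 2
  rw [filter_true_of_mem (fun _ _ => mem_univ _)]

/-- Spreadness of the weights. -/
lemma spread_zz (h𝒜 : ∀ ω ∈ 𝒜, ∀ u ∈ I, ω.1 u = τ₀ u ∧ ω.2 u = b u) {l : ℕ} {c : ℝ}
    (hc : 0 ≤ c)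
    (hsp : ∀ T : Finset U, T.card ≤ l → Disjoint T I → ∀ a : U → U,
      ((𝒜.filter (fun ω => ∀ u ∈ T, ω.1 u = a u)).card : ℝ) ≤ c ^ T.card * 𝒜.card) :
    Spread (zz 𝒜 I b) (I.image τ₀) l c := by
  intro S hS hd f
  have hZ0 : 0 ≤ ∑ τ, zz 𝒜 I b τ := sum_nonneg (fun τ _ => zz_nonneg τ)
  by_cases hex : ∃ τ₁ : Equiv.Perm U, (∀ s ∈ S, τ₁.symm s = f s) ∧ zz 𝒜 I b τ₁ ≠ 0
  · obtain ⟨τ₁, h1, h2⟩ := hex
    have hτ₁ : ∀ u ∈ I, τ₁ u = τ₀ u := by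
      by_contra hcon
      apply h2
      unfold zz
      rw [zz_eq_zero h𝒜 hcon]
      exact avg_const 0
    set T := S.image τ₁.symm with hT
    have hTc : T.card = S.card := card_image_of_injective _ τ₁.symm.injective
    have hTI : Disjoint T I := by
      rw [disjoint_left]
      intro u hu hu'
      obtain ⟨s, hs, rfl⟩ := mem_image.1 hu
      have h3 := hτ₁ _ hu'
      rw [Equiv.apply_symm_apply] at h3
      exact disjoint_left.1 hd hs (h3 ▸ mem_image_of_mem τ₀ hu')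
    have h3 := hsp T (by omega) hTI τ₁
    have hsub : univ.filter (fun τ : Equiv.Perm U => ∀ s ∈ S, τ.symm s = f s) ⊆
        univ.filter (fun τ : Equiv.Perm U => ∀ u ∈ T, τ u = τ₁ u) := by
      intro τ hτ
      rw [mem_filter] at hτ ⊢
      refine ⟨mem_univ _, fun u hu => ?_⟩
      obtain ⟨s, hs, rfl⟩ := mem_image.1 hu
      rw [Equiv.apply_symm_apply, h1 s hs, ← hτ.2 s hs, Equiv.apply_symm_apply]
    refine (sum_le_sum_of_subset_of_nonneg hsub (fun τ _ _ => zz_nonneg τ)).trans ?_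
    have hC : (0 : ℝ) < (Fintype.card (U → Γ) : ℝ) * kap I b := by
      have : (0 : ℝ) < Fintype.card (U → Γ) := by exact_mod_cast Fintype.card_pos
      exact mul_pos this kap_pos
    refine le_of_mul_le_mul_left ?_ hC
    have h4 : (Fintype.card (U → Γ) : ℝ) * kap I b * (c ^ S.card * ∑ τ, zz 𝒜 I b τ) =
        c ^ S.card * 𝒜.card := by
      rw [← sum_zz_univ h𝒜]; ring
    rw [sum_zz h𝒜, h4, ← hTc]
    refine le_trans ?_ h3
    have : 𝒜.filter (fun ω => ω.1 ∈ univ.filter (fun τ : Equiv.Perm U => ∀ u ∈ T, τ u = τ₁ u)) =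
        𝒜.filter (fun ω => ∀ u ∈ T, ω.1 u = τ₁ u) := by
      ext ω
      simp
    rw [this]
  · push Not at hex
    have h1 : ∑ τ ∈ univ.filter (fun τ : Equiv.Perm U => ∀ s ∈ S, τ.symm s = f s),
        zz 𝒜 I b τ = 0 := by
      refine sum_eq_zero (fun τ hτ => ?_)
      exact hex τ (mem_filter.1 hτ).2
    rw [h1]
    positivity

lemma pow_trick {m : ℕ} (hm : 1 ≤ m) {W z t B : ℝ} (hW : 0 ≤ W) (hz : 0 < z) (ht : 0 ≤ t)
    (hB : 0 ≤ B) (h : W ^ m ≤ z ^ (2 * m - 1) * B ^ m) (ht1 : 1 ≤ 2 ^ m * t) :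
    W / z ≤ 2 * (z + t) * B := by
  have h0 : 0 ≤ 2 * (z + t) * B := by positivity
  have hm0 : m ≠ 0 := by omega
  refine (pow_le_pow_iff_left₀ (div_nonneg hW hz.le) h0 hm0).1 ?_
  have h1 : (W / z) ^ m ≤ z ^ (m - 1) * B ^ m := by
    rw [div_pow, div_le_iff₀ (by positivity)]
    refine h.trans (le_of_eq ?_)
    have : z ^ (2 * m - 1) = z ^ (m - 1) * z ^ m := by
      rw [← pow_add]; congr 1; omega
    rw [this]; ring
  have h2 : z ^ (m - 1) * t ≤ (z + t) ^ m := by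
    calc z ^ (m - 1) * t ≤ (z + t) ^ (m - 1) * (z + t) := by
          refine mul_le_mul ?_ (by linarith) ht (by positivity)
          exact pow_le_pow_left₀ hz.le (by linarith) _
      _ = (z + t) ^ m := by rw [← pow_succ]; congr 1; omega
  calc (W / z) ^ m ≤ z ^ (m - 1) * B ^ m := h1
    _ ≤ z ^ (m - 1) * B ^ m * (2 ^ m * t) := by
        refine le_mul_of_one_le_right (by positivity) ht1
    _ = (2 ^ m * B ^ m) * (z ^ (m - 1) * t) := by ring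
    _ ≤ (2 ^ m * B ^ m) * (z + t) ^ m := mul_le_mul_of_nonneg_left h2 (by positivity)
    _ = _ := by rw [mul_pow, mul_pow]; ring

/-- The first factor. -/
lemma first_factor (h𝒜 : ∀ ω ∈ 𝒜, ∀ u ∈ I, ω.1 u = τ₀ u ∧ ω.2 u = b u) {i₀ : ℕ}
    (hN : ((univ.filter (fun τ : Equiv.Perm U => ∀ u ∈ I, τ u = τ₀ u)).card : ℝ) ≤
      2 ^ (2 ^ i₀) * ∑ τ, zz 𝒜 I b τ) (i : ℕ) (𝒯 : Finset (Finset U))
    (h𝒯 : 𝒯 ⊆ powersetCard i univ) :
    ∑ τ, (∑ T ∈ 𝒯, nr (Fb 𝒜 I b τ) T) / zz 𝒜 I b τ ≤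
      4 * ((4 * (Fintype.card Γ : ℝ)) ^ i₀) ^ i * ∑ τ, zz 𝒜 I b τ := by
  set 𝒮 := univ.filter (fun τ : Equiv.Perm U => ∀ u ∈ I, τ u = τ₀ u) with h𝒮
  set Z := ∑ τ, zz 𝒜 I b τ with hZ
  set B := ((4 * (Fintype.card Γ : ℝ)) ^ i₀) ^ i with hB
  have hZ0 : 0 ≤ Z := sum_nonneg (fun τ _ => zz_nonneg τ)
  have hB0 : 0 ≤ B := by rw [hB]; positivity
  have h𝒮0 : (0 : ℝ) < 𝒮.card := by
    have : τ₀ ∈ 𝒮 := by rw [h𝒮, mem_filter]; exact ⟨mem_univ _, fun _ _ => rfl⟩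
    exact_mod_cast card_pos.2 ⟨_, this⟩
  set t := Z / 𝒮.card with ht
  have ht0 : 0 ≤ t := div_nonneg hZ0 h𝒮0.le
  have ht1 : 1 ≤ (2 : ℝ) ^ (2 ^ i₀) * t := by
    rw [ht, ← mul_div_assoc, le_div_iff₀ h𝒮0, one_mul]
    exact hN
  have hout : ∀ τ, τ ∉ 𝒮 → zz 𝒜 I b τ = 0 := by
    intro τ hτ
    have : ¬ ∀ u ∈ I, τ u = τ₀ u := fun h => hτ (by rw [h𝒮, mem_filter]; exact ⟨mem_univ _, h⟩)
    unfold zz
    rw [zz_eq_zero h𝒜 this]
    exact avg_const 0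
  have h1 : ∑ τ, (∑ T ∈ 𝒯, nr (Fb 𝒜 I b τ) T) / zz 𝒜 I b τ =
      ∑ τ ∈ 𝒮, (∑ T ∈ 𝒯, nr (Fb 𝒜 I b τ) T) / zz 𝒜 I b τ := by
    symm
    refine sum_subset (subset_univ _) (fun τ _ hτ => ?_)
    rw [hout τ hτ, div_zero]
  rw [h1]
  have h2 : ∀ τ ∈ 𝒮, (∑ T ∈ 𝒯, nr (Fb 𝒜 I b τ) T) / zz 𝒜 I b τ ≤
      2 * (zz 𝒜 I b τ + t) * B := by
    intro τ _
    rcases (zz_nonneg (𝒜 := 𝒜) (I := I) (b := b) τ).eq_or_lt with h | h
    · rw [← h, div_zero]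
      positivity
    · have h3 := level_bound (g := Fb 𝒜 I b τ) (fun w => In_nonneg _ _ _) (M := 1)
        (fun w => In_le_one _ _ _) i₀ i 𝒯 (fun T hT => (mem_powersetCard.1 (h𝒯 hT)).2.le)
      refine pow_trick (m := 2 ^ i₀) (Nat.one_le_pow _ _ (by norm_num))
        (sum_nonneg (fun T _ => nr_nonneg _ _)) h ht0 hB0 ?_ ht1
      refine h3.trans (le_of_eq ?_)
      rw [mul_one, hB, ← pow_mul, ← pow_mul]
      congr 2
      ring
  refine (sum_le_sum h2).trans ?_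
  have h4 : ∑ τ ∈ 𝒮, zz 𝒜 I b τ ≤ Z :=
    sum_le_sum_of_subset_of_nonneg (subset_univ _) (fun τ _ _ => zz_nonneg τ)
  have h5 : ∑ τ ∈ 𝒮, 2 * (zz 𝒜 I b τ + t) * B = 2 * B * (∑ τ ∈ 𝒮, zz 𝒜 I b τ + 𝒮.card * t) := by
    rw [← sum_mul, ← mul_sum, sum_add_distrib, sum_const, nsmul_eq_mul]; ring
  rw [h5]
  have h6 : (𝒮.card : ℝ) * t = Z := by rw [ht]; field_simp
  rw [h6]
  nlinarith

/-- The second factor. -/
lemma second_level {g : (U → A) → ℝ} (hg : ∀ x, 0 ≤ g x) {i₀ : ℕ} {M : ℝ} (hM : ∀ x, g x ≤ M)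
    (hM2 : M ≤ 2 ^ (2 ^ i₀)) (i : ℕ) :
    Wl g i ≤ 2 * (1 + avg g) ^ 2 * ((4 * (Fintype.card A : ℝ)) ^ i₀) ^ i := by
  have ha0 : 0 ≤ avg g := avg_nonneg hg
  have h0 : 0 ≤ 2 * (1 + avg g) ^ 2 * ((4 * (Fintype.card A : ℝ)) ^ i₀) ^ i := by positivity
  have hm : (2 ^ i₀ : ℕ) ≠ 0 := by positivity
  refine (pow_le_pow_iff_left₀ (Wl_nonneg g i) h0 hm).1 ?_
  have h3 := level_bound hg hM i₀ i (powersetCard i univ)
    (fun T hT => (mem_powersetCard.1 hT).2.le)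
  have h1 : (avg g) ^ (2 * 2 ^ i₀ - 1) ≤ (1 + avg g) ^ (2 * 2 ^ i₀) := by
    calc (avg g) ^ (2 * 2 ^ i₀ - 1) ≤ (1 + avg g) ^ (2 * 2 ^ i₀ - 1) :=
          pow_le_pow_left₀ ha0 (by linarith) _
      _ ≤ (1 + avg g) ^ (2 * 2 ^ i₀) := pow_le_pow_right₀ (by linarith) (by omega)
  have hM0 : 0 ≤ M := by
    obtain ⟨x⟩ : Nonempty (U → A) := inferInstance
    exact (hg x).trans (hM x)
  calc Wl g i ^ (2 ^ i₀) ≤ _ := h3
    _ ≤ (1 + avg g) ^ (2 * 2 ^ i₀) * 2 ^ (2 ^ i₀) *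
        (4 * (Fintype.card A : ℝ)) ^ (i₀ * 2 ^ i₀ * i) := by
        refine mul_le_mul_of_nonneg_right ?_ (by positivity)
        exact mul_le_mul h1 hM2 hM0 (by positivity)
    _ = _ := by
        generalize 4 * (Fintype.card A : ℝ) = B
        generalize 1 + avg g = c
        rw [mul_pow, mul_pow, ← pow_mul, ← pow_mul, ← pow_mul]
        have : i₀ * 2 ^ i₀ * i = i₀ * i * 2 ^ i₀ := by ring
        rw [this]
        ring

end

end Pool.Agent.Lib.MP_8d8c46_lc.EL
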