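import Pool.Agent.Lib.MP_8d8c46_lc.EL.Bil

/-!
Consistent local densities, and the functional that they define.
-/

set_option autoImplicit false
set_option linter.unusedSectionVars false

open scoped Classical
open Finset

namespace Pool.Agent.Lib.MP_8d8c46_lc.EL

/-- Consistent local densities (with respect to the uniform measure) on all sets of at most `k`
coordinates; a coordinate that is not near a set is uniform and independent of the set. -/
structure PDist (U A : Type) [Fintype U] [Fintype A] (near : U → U → Prop) (k : ℕ) where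
  D : Finset U → (U → A) → ℝ
  dep : ∀ W, DepOn W (D W)
  nonneg : ∀ W, W.card ≤ k → ∀ x, 0 ≤ D W x
  empty : ∀ x, D ∅ x = 1
  cons : ∀ W u, u ∉ W → W.card + 1 ≤ k → ∀ x,
    avg (fun a => D (insert u W) (Function.update x u a)) = D W x
  indep : ∀ W u, u ∉ W → W.card + 1 ≤ k → (∀ v ∈ W, ¬ near u v) → ∀ x, D (insert u W) x = D W x

section
variable {U A Γ : Type} [Fintype U] [Fintype A] [Nonempty A] [Fintype Γ] [Nonempty Γ]
  {near : U → U → Prop} {k : ℕ} (P : PDist U A near k)

/-- the component of the density at level `T` outside `I` -/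
noncomputable def dl (I T : Finset U) (x : U → A) : ℝ :=
  ∑ S ∈ T.powerset, (-1) ^ (T \ S).card * P.D (I ∪ S) x

lemma dl_dep (I T : Finset U) : DepOn (I ∪ T) (dl P I T) := by
  intro x y h
  unfold dl
  refine sum_congr rfl (fun S hS => ?_)
  rw [P.dep (I ∪ S) x y (fun u hu => h u (union_subset_union_right (mem_powerset.1 hS) hu))]

lemma dl_empty_right (I : Finset U) (x : U → A) : dl P I ∅ x = P.D I x := by
  unfold dl
  simp

lemma dl_insert (J : Finset U) {T : Finset U} {u : U} (hu : u ∉ T) (x : U → A) :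
    dl P J (insert u T) x = dl P (insert u J) T x - dl P J T x := by
  unfold dl
  rw [sum_powerset_insert hu, ← sum_sub_distrib, ← sum_add_distrib]
  refine sum_congr rfl (fun S hS => ?_)
  rw [mem_powerset] at hS
  have huS : u ∉ S := fun h => hu (hS h)
  have h1 : insert u T \ S = insert u (T \ S) := by
    ext v
    simp only [mem_sdiff, mem_insert]
    by_cases hv : v = u
    · subst hv; simp [huS]
    · simp [hv]
  have h2 : u ∉ T \ S := fun h => hu (mem_sdiff.1 h).1
  have h3 : insert u T \ insert u S = T \ S := by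
    ext v
    simp only [mem_sdiff, mem_insert]
    by_cases hv : v = u
    · subst hv; simp [hu]
    · simp [hv]
  have h4 : J ∪ insert u S = insert u J ∪ S := by
    ext v
    simp only [mem_union, mem_insert]
    tauto
  rw [h1, card_insert_of_notMem h2, h3, h4, pow_succ]
  ring

/-- Möbius inversion. -/
lemma sum_dl (I : Finset U) : ∀ (J T : Finset U), Disjoint I T → ∀ x : U → A,
    ∑ T₁ ∈ I.powerset, dl P J (T₁ ∪ T) x = dl P (J ∪ I) T x := by
  induction I using Finset.induction_on with
  | empty => intro J T _ x; simp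
  | insert u I hu ih =>
    intro J T hd x
    rw [disjoint_insert_left] at hd
    rw [sum_powerset_insert hu, ← sum_add_distrib]
    have h1 : ∀ T₁ ∈ I.powerset, dl P J (T₁ ∪ T) x + dl P J (insert u T₁ ∪ T) x =
        dl P (insert u J) (T₁ ∪ T) x := by
      intro T₁ hT₁
      rw [mem_powerset] at hT₁
      have h2 : u ∉ T₁ ∪ T := by
        rw [mem_union, not_or]
        exact ⟨fun h => hu (hT₁ h), hd.1⟩
      rw [insert_union, dl_insert P J h2]
      ring
    have h3 : insert u J ∪ I = J ∪ insert u I := by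
      ext v
      simp only [mem_union, mem_insert]
      tauto
    rw [sum_congr rfl h1, ih (insert u J) T hd.2 x, h3]

lemma dl_mz {I T : Finset U} (hd : Disjoint I T) (hk : I.card + T.card ≤ k) {u : U}
    (hu : u ∈ T) : MZ u (dl P I T) := by
  intro x
  have h1 : (fun a => dl P I T (Function.update x u a)) =
      fun a => ∑ S ∈ T.powerset, (-1) ^ (T \ S).card * P.D (I ∪ S) (Function.update x u a) := rfl
  rw [h1, avg_sum]
  simp only [avg_const_mul]
  refine sum_powerset_cancel hu
    (fun S => avg (fun a => P.D (I ∪ S) (Function.update x u a))) (fun S huS hS => ?_)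
  have huI : u ∉ I := fun h => (disjoint_left.1 hd h) hu
  have huIS : u ∉ I ∪ S := by
    rw [mem_union, not_or]; exact ⟨huI, huS⟩
  have h2 : I ∪ insert u S = insert u (I ∪ S) := by
    ext v
    simp only [mem_union, mem_insert]
    tauto
  have h3 : (I ∪ S).card + 1 ≤ k := by
    have h4 : (I ∪ S).card ≤ I.card + S.card := card_union_le _ _
    have h5 : (insert u S).card ≤ T.card := card_le_card (insert_subset hu hS)
    rw [card_insert_of_notMem huS] at h5
    omega
  rw [h2, P.cons _ _ huIS h3 x]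
  have h6 : (fun a => P.D (I ∪ S) (Function.update x u a)) = fun _ => P.D (I ∪ S) x := by
    funext a
    refine P.dep (I ∪ S) _ _ (fun v hv => ?_)
    rw [Function.update_of_ne]
    rintro rfl
    exact huIS hv
  rw [h6, avg_const]

lemma D_insert_le {W : Finset U} {u : U} (hu : u ∉ W) (hk : W.card + 1 ≤ k) (x : U → A) :
    P.D (insert u W) x ≤ Fintype.card A * P.D W x := by
  rw [← P.cons W u hu hk x]
  rw [card_mul_avg]
  have h1 : P.D (insert u W) x = P.D (insert u W) (Function.update x u (x u)) := by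
    rw [Function.update_eq_self]
  rw [h1]
  refine single_le_sum (f := fun a => P.D (insert u W) (Function.update x u a)) (fun a _ => ?_)
    (mem_univ (x u))
  refine P.nonneg _ ?_ _
  rw [card_insert_of_notMem hu]
  exact hk

lemma D_union_le (I : Finset U) (x : U → A) : ∀ S : Finset U, Disjoint I S → I.card + S.card ≤ k →
    P.D (I ∪ S) x ≤ (Fintype.card A : ℝ) ^ S.card * P.D I x := by
  intro S
  induction S using Finset.induction_on with
  | empty => intro _ _; simp
  | insert u S hu ih =>
    intro hd hk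
    rw [disjoint_insert_right] at hd
    rw [card_insert_of_notMem hu] at hk
    have h2 : I ∪ insert u S = insert u (I ∪ S) := by
      ext v
      simp only [mem_union, mem_insert]
      tauto
    have huIS : u ∉ I ∪ S := by
      rw [mem_union, not_or]; exact ⟨hd.1, hu⟩
    have h3 : (I ∪ S).card + 1 ≤ k := by
      have := card_union_le I S
      omega
    rw [h2, card_insert_of_notMem hu, pow_succ]
    calc P.D (insert u (I ∪ S)) x ≤ Fintype.card A * P.D (I ∪ S) x := D_insert_le P huIS h3 x
      _ ≤ Fintype.card A * ((Fintype.card A : ℝ) ^ S.card * P.D I x) :=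
          mul_le_mul_of_nonneg_left (ih hd.2 (by omega)) (Nat.cast_nonneg _)
      _ = _ := by ring

lemma abs_dl_le {I T : Finset U} (hd : Disjoint I T) (hk : I.card + T.card ≤ k) (x : U → A) :
    |dl P I T x| ≤ (2 * (Fintype.card A : ℝ)) ^ T.card * P.D I x := by
  have hA : (1 : ℝ) ≤ Fintype.card A := by exact_mod_cast Fintype.card_pos
  have hD0 : 0 ≤ P.D I x := P.nonneg I (by omega) x
  unfold dl
  refine (abs_sum_le_sum_abs _ _).trans ?_
  have h1 : ∀ S ∈ T.powerset, |(-1 : ℝ) ^ (T \ S).card * P.D (I ∪ S) x| ≤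
      (Fintype.card A : ℝ) ^ T.card * P.D I x := by
    intro S hS
    rw [mem_powerset] at hS
    have hc := card_le_card hS
    have hdS : Disjoint I S := disjoint_of_subset_right hS hd
    rw [abs_mul, abs_pow, abs_neg, abs_one, one_pow, one_mul, abs_of_nonneg]
    · refine (D_union_le P I x S hdS (by omega)).trans ?_
      exact mul_le_mul_of_nonneg_right (pow_le_pow_right₀ hA hc) hD0
    · refine P.nonneg _ ((card_union_le _ _).trans (by omega)) x
  refine (sum_le_card_nsmul _ _ _ h1).trans (le_of_eq ?_)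
  rw [card_powerset, nsmul_eq_mul, mul_pow]
  push_cast
  ring

/-- every element of `T` is near to another element of `T ∪ I` -/
def Pd (near : U → U → Prop) (I T : Finset U) : Prop := ∀ u ∈ T, ∃ v ∈ T.erase u ∪ I, near u v

lemma dl_eq_zero {I T : Finset U} (hd : Disjoint I T) (hk : I.card + T.card ≤ k)
    (h : ¬ Pd near I T) (x : U → A) : dl P I T x = 0 := by
  unfold Pd at h
  push Not at h
  obtain ⟨u, hu, hfar⟩ := h
  refine sum_powerset_cancel hu (fun S => P.D (I ∪ S) x) (fun S huS hS => ?_)
  have huI : u ∉ I := fun h => (disjoint_left.1 hd h) hu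
  have huIS : u ∉ I ∪ S := by
    rw [mem_union, not_or]; exact ⟨huI, huS⟩
  have h2 : I ∪ insert u S = insert u (I ∪ S) := by
    ext v
    simp only [mem_union, mem_insert]
    tauto
  have h3 : (I ∪ S).card + 1 ≤ k := by
    have h4 : (I ∪ S).card ≤ I.card + S.card := card_union_le _ _
    have h5 : (insert u S).card ≤ T.card := card_le_card (insert_subset hu hS)
    rw [card_insert_of_notMem huS] at h5
    omega
  rw [h2, P.indep _ _ huIS h3]
  intro v hv
  refine hfar v ?_
  rw [mem_union] at hv ⊢
  rcases hv with hv | hv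
  · exact Or.inr hv
  · refine Or.inl (mem_erase.2 ⟨?_, hS hv⟩)
    rintro rfl
    exact huS hv

/-- the sets of at most `k` coordinates -/
noncomputable def low (U : Type) [Fintype U] (k : ℕ) : Finset (Finset U) :=
  univ.filter (fun T => T.card ≤ k)

lemma mem_low {T : Finset U} : T ∈ low U k ↔ T.card ≤ k := by unfold low; simp

/-- The functional agrees with the local densities. -/
lemma sum_avg_dl {φ : (U → A) → ℝ} {W : Finset U} (hφ : DepOn W φ) (hW : W.card ≤ k) :
    ∑ T ∈ low U k, avg (fun x => dl P ∅ T x * φ x) = avg (fun x => P.D W x * φ x) := by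
  have h1 : ∑ T ∈ W.powerset, avg (fun x => dl P ∅ T x * φ x) =
      ∑ T ∈ low U k, avg (fun x => dl P ∅ T x * φ x) := by
    refine sum_subset ?_ ?_
    · intro T hT
      exact mem_low.2 ((card_le_card (mem_powerset.1 hT)).trans hW)
    · intro T hT hTW
      rw [mem_powerset] at hTW
      obtain ⟨u, huT, huW⟩ := not_subset.1 hTW
      have h2 : (fun x => dl P ∅ T x * φ x) = fun x => φ x * dl P ∅ T x := by
        funext x; ring
      rw [h2]
      exact avg_mz (dl_mz P (disjoint_empty_left _) (by simpa using mem_low.1 hT) huT) hφ huW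
  rw [← h1, ← avg_sum]
  congr 1
  funext x
  rw [← sum_mul]
  congr 1
  have h3 := sum_dl P W ∅ ∅ (disjoint_empty_right _) x
  simp only [union_empty, empty_union] at h3
  rw [h3, dl_empty_right]

variable (𝔞 : Act Γ A)

/-- the relabelled functional -/
noncomputable def Lw (τ : Equiv.Perm U) (w : U → Γ) (g : (U → A) → ℝ) : ℝ :=
  ∑ T ∈ low U k, avg (fun x => dl P ∅ T (ax 𝔞 w (x ∘ τ)) * g x)

/-- relabelling of points -/
noncomputable def axe (τ : Equiv.Perm U) (w : U → Γ) : (U → A) ≃ (U → A) :=
  (Equiv.arrowCongr τ.symm (Equiv.refl A)).trans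
    (Equiv.piCongrRight (fun u => Equiv.ofBijective _ (𝔞.bij (w u))))

lemma axe_apply (τ : Equiv.Perm U) (w : U → Γ) (x : U → A) : axe 𝔞 τ w x = ax 𝔞 w (x ∘ τ) := rfl

/-- The relabelled functional on relabelled functions. -/
lemma Lw_comp (τ : Equiv.Perm U) (w : U → Γ) (Φ : (U → A) → ℝ) :
    Lw P 𝔞 τ w (fun x => Φ (ax 𝔞 w (x ∘ τ))) = ∑ T ∈ low U k, avg (fun x => dl P ∅ T x * Φ x) := by
  unfold Lw
  refine sum_congr rfl (fun T _ => ?_)
  exact avg_equiv (axe 𝔞 τ w) (fun x => dl P ∅ T x * Φ x)

lemma Lw_add (τ : Equiv.Perm U) (w : U → Γ) (g h : (U → A) → ℝ) :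
    Lw P 𝔞 τ w (fun x => g x + h x) = Lw P 𝔞 τ w g + Lw P 𝔞 τ w h := by
  unfold Lw
  rw [← sum_add_distrib]
  refine sum_congr rfl (fun T _ => ?_)
  rw [← avg_add]
  congr 1; funext x; ring

lemma Lw_const_mul (τ : Equiv.Perm U) (w : U → Γ) (c : ℝ) (g : (U → A) → ℝ) :
    Lw P 𝔞 τ w (fun x => c * g x) = c * Lw P 𝔞 τ w g := by
  unfold Lw
  rw [mul_sum]
  refine sum_congr rfl (fun T _ => ?_)
  rw [← avg_const_mul]
  congr 1; funext x; ring

lemma Lw_sum {ι : Type*} (s : Finset ι) (τ : Equiv.Perm U) (w : U → Γ)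
    (g : ι → (U → A) → ℝ) :
    Lw P 𝔞 τ w (fun x => ∑ i ∈ s, g i x) = ∑ i ∈ s, Lw P 𝔞 τ w (g i) := by
  unfold Lw
  rw [sum_comm]
  refine sum_congr rfl (fun T _ => ?_)
  rw [← avg_sum]
  congr 1; funext x; rw [mul_sum]

lemma Lw_one (τ : Equiv.Perm U) (w : U → Γ) : Lw P 𝔞 τ w (fun _ => 1) = 1 := by
  rw [Lw_comp P 𝔞 τ w (fun _ => 1)]
  have h := sum_avg_dl P (φ := fun _ => (1 : ℝ)) (W := ∅) (fun _ _ _ => rfl) (by simp)
  rw [h]
  simp only [P.empty, mul_one]
  exact avg_const 1

end

end Pool.Agent.Lib.MP_8d8c46_lc.EL
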