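import Pool.Agent.Lib.MP_8d8c46_lc.EL.Bil

/-!
The action of the permutations of a set on its subsets with `p` elements.
-/

set_option autoImplicit false
set_option linter.unusedSectionVars false

open scoped Classical
open Finset

namespace Pool.Agent.Lib.MP_8d8c46_lc.EL

section
variable {X : Type} [Fintype X] {p : ℕ}

/-- the subsets with `p` elements -/
abbrev Sb (X : Type) (p : ℕ) : Type := {s : Finset X // s.card = p}

lemma nonempty_sb (h : p ≤ Fintype.card X) : Nonempty (Sb X p) := by
  obtain ⟨s, _, hs⟩ := exists_subset_card_eq (s := (univ : Finset X)) (n := p)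
    (by rw [card_univ]; exact h)
  exact ⟨⟨s, hs⟩⟩

/-- the image of a subset -/
def pact (γ : Equiv.Perm X) (s : Sb X p) : Sb X p :=
  ⟨s.1.map γ.toEmbedding, by rw [card_map]; exact s.2⟩

lemma pact_mul (γ γ' : Equiv.Perm X) (s : Sb X p) : pact (γ * γ') s = pact γ (pact γ' s) := by
  apply Subtype.ext
  show s.1.map _ = (s.1.map _).map _
  rw [map_map]
  rfl

lemma pact_one (s : Sb X p) : pact 1 s = s := by
  apply Subtype.ext
  show s.1.map _ = s.1
  ext x
  rw [mem_map_equiv]
  rfl

lemma pact_bij (γ : Equiv.Perm X) : Function.Bijective (pact (p := p) γ) := by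
  refine ⟨fun s s' h => ?_, fun s => ⟨pact γ⁻¹ s, ?_⟩⟩
  · have := congrArg (pact γ⁻¹) h
    rwa [← pact_mul, ← pact_mul, inv_mul_cancel, pact_one, pact_one] at this
  · rw [← pact_mul, mul_inv_cancel, pact_one]

lemma exists_pact (s s' : Sb X p) : ∃ γ, pact γ s = s' := by
  have hc : Fintype.card {x // x ∈ s.1} = Fintype.card {x // x ∈ s'.1} := by
    rw [Fintype.card_coe, Fintype.card_coe, s.2, s'.2]
  obtain ⟨e⟩ := Fintype.card_eq.1 hc
  refine ⟨e.extendSubtype, ?_⟩
  apply Subtype.ext
  show s.1.map _ = s'.1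
  refine eq_of_subset_of_card_le ?_ ?_
  · intro x hx
    obtain ⟨y, hy, rfl⟩ := mem_map.1 hx
    exact e.extendSubtype_mem y hy
  · rw [card_map, s.2, s'.2]

lemma mem_pact {γ : Equiv.Perm X} {s : Sb X p} {i : X} : i ∈ (pact γ s).1 ↔ γ.symm i ∈ s.1 := by
  show i ∈ s.1.map _ ↔ _
  rw [mem_map_equiv]

/-- The action of the permutations on the subsets with `p` elements. -/
def pAct (X : Type) [Fintype X] [DecidableEq X] (p : ℕ) : Act (Equiv.Perm X) (Sb X p) where
  act := pact
  bij := pact_bij
  equi := by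
    intro f a
    have hne : Nonempty (Sb X p) := ⟨a⟩
    have h1 : ∀ b, avg (fun γ : Equiv.Perm X => f (pact γ b)) =
        avg (fun γ : Equiv.Perm X => f (pact γ a)) := by
      intro b
      obtain ⟨γ₀, rfl⟩ := exists_pact a b
      have h2 := avg_equiv (Equiv.mulRight γ₀) (fun γ : Equiv.Perm X => f (pact γ a))
      rw [← h2]
      congr 1
      funext γ
      rw [Equiv.coe_mulRight, pact_mul]
    have h3 : avg (fun b => avg (fun γ : Equiv.Perm X => f (pact γ b))) = avg f := by
      rw [avg_comm2]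
      have h4 : ∀ γ : Equiv.Perm X, avg (fun b : Sb X p => f (pact γ b)) = avg f := fun γ =>
        avg_equiv (Equiv.ofBijective _ (pact_bij γ)) f
      simp only [h4]
      exact avg_const _
    rw [← h3]
    simp only [h1]
    rw [avg_const]

end

end Pool.Agent.Lib.MP_8d8c46_lc.EL
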