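import Pool.Agent.Lib.MP_8d8c46_lc.EL.GInv
import Pool.Agent.Lib.MP_8d8c46_lc.EL.Sub
import Pool.Agent.Lib.MP_8d8c46_lc.EL.PDist
import Pool.Agent.Lib.MP_8d8c46_lc.SA.Lift

/-!
Expectations of functions of the selected subsets of the clouds.
-/

set_option autoImplicit false
set_option linter.unusedSectionVars false

open scoped Classical
open Finset MeasureTheory ProbabilityTheory

namespace Pool.Agent.Lib.MP_8d8c46_lc.EL

open SA

section
variable {U : Type} [Fintype U] {q : ℕ} [NeZero q] {p : ℕ} (hp : p ≤ q)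

/-- the selected subsets -/
noncomputable def ss (z : U × ZMod q → ℝ) (u : U) : Sb (ZMod q) p :=
  ⟨univ.filter (fun i => sel p (fun j => z (u, j)) i), card_sel hp _⟩

lemma mem_ss {z : U × ZMod q → ℝ} {u : U} {i : ZMod q} :
    i ∈ (ss hp z u).1 ↔ sel p (fun j => z (u, j)) i := by
  unfold ss
  simp

lemma measurable_F (B : Finset U) (F : (U → Sb (ZMod q) p) → ℝ) :
    Measurable fun z : EuclideanSpace ℝ (cl q B) => F (ss hp (ext B z)) := by
  have h1 : F = fun σ => ∑ τ, (if σ = τ then F τ else 0) := by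
    funext σ
    rw [sum_ite_eq univ σ F, if_pos (mem_univ _)]
  rw [h1]
  refine Finset.measurable_sum _ (fun τ _ => ?_)
  refine Measurable.ite ?_ measurable_const measurable_const
  have h2 : {z : EuclideanSpace ℝ (cl q B) | ss hp (ext B z) = τ} =
      ⋂ u : U, ⋂ i : ZMod q, {z | sel p (fun j => ext B z (u, j)) i ↔ i ∈ (τ u).1} := by
    ext z
    simp only [Set.mem_ofPred_eq, Set.mem_iInter]
    constructor
    · intro h u i
      rw [← mem_ss hp, h]
    · intro h
      funext u
      apply Subtype.ext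
      ext i
      rw [mem_ss hp]
      exact h u i
  rw [h2]
  refine MeasurableSet.iInter (fun u => MeasurableSet.iInter (fun i => ?_))
  have h3 : MeasurableSet {z : EuclideanSpace ℝ (cl q B) | sel p (fun j => ext B z (u, j)) i} := by
    have h : Measurable fun x : EuclideanSpace ℝ (cl q B) => (fun j => ext B x (u, j)) :=
      measurable_pi_iff.2 (fun j => measurable_ext B _)
    exact h (measurableSet_sel p i)
  by_cases hi : i ∈ (τ u).1
  · simp only [hi, iff_true]
    exact h3
  · simp only [hi, iff_false]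
    exact h3.compl

variable (K : U × ZMod q → U × ZMod q → ℝ)

/-- the expectation of a function of the selected subsets -/
noncomputable def gE (B : Finset U) (F : (U → Sb (ZMod q) p) → ℝ) : ℝ :=
  ∫ z, F (ss hp (ext B z)) ∂(gm K B)

lemma integrable_F (B : Finset U) (F : (U → Sb (ZMod q) p) → ℝ) :
    Integrable (fun z => F (ss hp (ext B z))) (gm K B) := by
  refine Integrable.of_bound (measurable_F hp B F).aestronglyMeasurable (∑ σ, |F σ|)
    (Filter.Eventually.of_forall (fun z => ?_))
  rw [Real.norm_eq_abs]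
  exact single_le_sum (f := fun σ => |F σ|) (fun σ _ => abs_nonneg _) (mem_univ _)

lemma gE_const (B : Finset U) (c : ℝ) : gE hp K B (fun _ => c) = c := by
  unfold gE
  rw [integral_const, probReal_univ, smul_eq_mul, one_mul]

lemma gE_const_mul (B : Finset U) (c : ℝ) (F : (U → Sb (ZMod q) p) → ℝ) :
    gE hp K B (fun σ => c * F σ) = c * gE hp K B F := by
  unfold gE
  rw [integral_const_mul]

lemma gE_add (B : Finset U) (F G : (U → Sb (ZMod q) p) → ℝ) :
    gE hp K B (fun σ => F σ + G σ) = gE hp K B F + gE hp K B G := by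
  unfold gE
  rw [integral_add (integrable_F hp K B F) (integrable_F hp K B G)]

lemma gE_sum {ι : Type*} (s : Finset ι) (B : Finset U) (F : ι → (U → Sb (ZMod q) p) → ℝ) :
    gE hp K B (fun σ => ∑ i ∈ s, F i σ) = ∑ i ∈ s, gE hp K B (F i) := by
  unfold gE
  rw [integral_finsetSum _ (fun i _ => integrable_F hp K B (F i))]

lemma gE_nonneg (B : Finset U) {F : (U → Sb (ZMod q) p) → ℝ} (h : ∀ σ, 0 ≤ F σ) :
    0 ≤ gE hp K B F := integral_nonneg (fun _ => h _)

lemma gE_avg {β : Type} [Fintype β] (B : Finset U) (F : β → (U → Sb (ZMod q) p) → ℝ) :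
    gE hp K B (fun σ => avg (fun b => F b σ)) = avg (fun b => gE hp K B (F b)) := by
  unfold avg
  have h1 : (fun σ => (∑ b, F b σ) / (Fintype.card β : ℝ)) =
      fun σ => (Fintype.card β : ℝ)⁻¹ * ∑ b, F b σ := by
    funext σ; rw [div_eq_inv_mul]
  rw [h1, gE_const_mul, gE_sum, div_eq_inv_mul]

/-- The expectations are consistent. -/
lemma gE_restrict {B B' : Finset U} (hBB : B ⊆ B') (hpsd : (cov K B').PosSemidef)
    {F : (U → Sb (ZMod q) p) → ℝ} (hF : DepOn B F) : gE hp K B' F = gE hp K B F := by
  have h1 := measurePreserving_restrict₂_multivariateGaussian (μ := 0) hpsd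
    (cl_mono (q := q) hBB)
  have h2 : (multivariateGaussian ((0 : EuclideanSpace ℝ (cl q B')).restrict₂ (cl_mono hBB))
      ((cov K B').submatrix (fun i : cl q B => ⟨i.1, cl_mono hBB i.2⟩)
        (fun i : cl q B => ⟨i.1, cl_mono hBB i.2⟩))) = gm K B := by
    unfold gm
    rw [map_zero]
    rfl
  rw [h2] at h1
  unfold gE
  rw [← h1.map_eq, integral_map h1.measurable.aemeasurable
    (measurable_F hp B F).aestronglyMeasurable]
  unfold gm
  congr 1
  funext x
  refine hF _ _ (fun u hu => ?_)
  unfold ss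
  have h3 : (fun j => ext B' x (u, j)) =
      fun j => ext B (EuclideanSpace.restrict₂ (cl_mono hBB) x) (u, j) := by
    funext j
    unfold SA.ext
    have h4 : (u, j) ∈ cl q B := mem_cl.2 hu
    rw [dif_pos h4, dif_pos (cl_mono hBB h4)]
    rfl
  simp only [h3]

/-- do `σ` and `x` agree on `W`? -/
noncomputable def agr (W : Finset U) (x σ : U → Sb (ZMod q) p) : ℝ :=
  if ∀ u ∈ W, σ u = x u then 1 else 0

lemma agr_nonneg (W : Finset U) (x σ : U → Sb (ZMod q) p) : 0 ≤ agr W x σ := by
  unfold agr; split_ifs <;> norm_num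

lemma agr_insert {W : Finset U} {u : U} (x σ : U → Sb (ZMod q) p) :
    agr (insert u W) x σ = (if σ u = x u then 1 else 0) * agr W x σ := by
  unfold agr
  simp only [forall_mem_insert]
  split_ifs <;> simp_all

lemma agr_update {W : Finset U} {u : U} (hu : u ∉ W) (x σ : U → Sb (ZMod q) p)
    (a : Sb (ZMod q) p) : agr W (Function.update x u a) σ = agr W x σ := by
  unfold agr
  have : (∀ v ∈ W, σ v = Function.update x u a v) ↔ ∀ v ∈ W, σ v = x v := by
    refine forall₂_congr (fun v hv => ?_)
    rw [Function.update_of_ne]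
    rintro rfl
    exact hu hv
  rw [if_congr this rfl rfl]

lemma agr_dep_left (W : Finset U) (σ : U → Sb (ZMod q) p) : DepOn W (fun x => agr W x σ) := by
  intro x y h
  unfold agr
  have : (∀ v ∈ W, σ v = x v) ↔ ∀ v ∈ W, σ v = y v :=
    forall₂_congr (fun v hv => by rw [h v hv])
  simp only [this]

lemma agr_dep_right (W : Finset U) (x : U → Sb (ZMod q) p) : DepOn W (fun σ => agr W x σ) := by
  intro σ τ h
  unfold agr
  have : (∀ v ∈ W, σ v = x v) ↔ ∀ v ∈ W, τ v = x v :=
    forall₂_congr (fun v hv => by rw [h v hv])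
  simp only [this]

lemma avg_agr [Nonempty (Sb (ZMod q) p)] (W : Finset U) (σ : U → Sb (ZMod q) p) :
    (Fintype.card (Sb (ZMod q) p) : ℝ) ^ W.card * avg (fun x => agr W x σ) = 1 := by
  have hA : (Fintype.card (Sb (ZMod q) p) : ℝ) ≠ 0 := by exact_mod_cast Fintype.card_ne_zero
  induction W using Finset.induction_on with
  | empty =>
    have : (fun x => agr (∅ : Finset U) x σ) = fun _ => 1 := by
      funext x; unfold agr; simp
    rw [this, avg_const]
    simp
  | insert u W hu ih =>
    have h1 : avg (fun x => agr (insert u W) x σ) =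
        (Fintype.card (Sb (ZMod q) p) : ℝ)⁻¹ * avg (fun x => agr W x σ) := by
      simp only [agr_insert]
      rw [avg_mul_cd (f := fun x : U → Sb (ZMod q) p => if σ u = x u then (1 : ℝ) else 0)
        (agr_dep_left W σ)]
      have h2 : ∀ x, cd (fun x : U → Sb (ZMod q) p => if σ u = x u then (1 : ℝ) else 0) W x =
          (Fintype.card (Sb (ZMod q) p) : ℝ)⁻¹ := by
        intro x
        unfold cd
        have h3 : ∀ y : U → Sb (ZMod q) p, mx W x y u = y u := fun y => by
          unfold mx; rw [if_neg hu]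
        simp only [h3]
        rw [avg_coord u (fun a : Sb (ZMod q) p => if σ u = a then (1 : ℝ) else 0)]
        unfold avg
        rw [sum_ite_eq univ (σ u), if_pos (mem_univ _), one_div]
      simp only [h2]
      exact avg_const_mul _ _
    rw [h1, card_insert_of_notMem hu, pow_succ]
    calc _ = ((Fintype.card (Sb (ZMod q) p) : ℝ) * (Fintype.card (Sb (ZMod q) p) : ℝ)⁻¹) *
          ((Fintype.card (Sb (ZMod q) p) : ℝ) ^ W.card * avg (fun x => agr W x σ)) := by ring
      _ = 1 := by rw [ih, mul_inv_cancel₀ hA, one_mul]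

/-- the local density -/
noncomputable def gD (W : Finset U) (x : U → Sb (ZMod q) p) : ℝ :=
  (Fintype.card (Sb (ZMod q) p) : ℝ) ^ W.card * gE hp K W (agr W x)

/-- The local densities represent the expectations. -/
lemma avg_gD [Nonempty (Sb (ZMod q) p)] {W : Finset U} {φ : (U → Sb (ZMod q) p) → ℝ}
    (hφ : DepOn W φ) : avg (fun x => gD hp K W x * φ x) = gE hp K W φ := by
  have h1 : ∀ x, gD hp K W x * φ x =
      gE hp K W (fun σ => ((Fintype.card (Sb (ZMod q) p) : ℝ) ^ W.card * agr W x σ) * φ σ) := by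
    intro x
    unfold gD
    rw [mul_right_comm, ← gE_const_mul hp K W _ (agr W x)]
    congr 1
    funext σ
    unfold agr
    split_ifs with h
    · rw [hφ σ x h]; ring
    · ring
  simp only [h1]
  rw [← gE_avg]
  congr 1
  funext σ
  rw [avg_mul_const, avg_const_mul, avg_agr, one_mul]

end

end Pool.Agent.Lib.MP_8d8c46_lc.EL
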