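import Mathlib

/-!
Invariance of multivariate Gaussian measures under permutations of the coordinates.
-/

set_option autoImplicit false
set_option linter.unusedSectionVars false

open scoped Classical RealInnerProductSpace
open Finset MeasureTheory ProbabilityTheory

namespace Pool.Agent.Lib.MP_8d8c46_lc.EL

/-- A Gaussian measure is invariant under the permutations of the coordinates which preserve the
covariance matrix. -/
theorem gauss_perm {ι : Type*} [Fintype ι] {S : Matrix ι ι ℝ} (hS : S.PosSemidef)
    (π : Equiv.Perm ι) (hπ : ∀ i j, S (π i) (π j) = S i j) :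
    (multivariateGaussian 0 S).map (LinearIsometryEquiv.piLpCongrLeft 2 ℝ ℝ π) =
      multivariateGaussian 0 S := by
  have : IsProbabilityMeasure ((multivariateGaussian 0 S).map
      (LinearIsometryEquiv.piLpCongrLeft 2 ℝ ℝ π)) :=
    Measure.isProbabilityMeasure_map (Measurable.aemeasurable (by fun_prop))
  apply Measure.ext_of_charFun
  funext t
  set f := LinearIsometryEquiv.piLpCongrLeft 2 ℝ ℝ π with hf
  have h1 : charFun ((multivariateGaussian 0 S).map f) t =
      charFun (multivariateGaussian 0 S) (f.symm t) := by
    rw [charFun_apply, charFun_apply, integral_map (Measurable.aemeasurable (by fun_prop))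
      (Measurable.aestronglyMeasurable (by fun_prop))]
    congr 1
    funext x
    congr 3
    have := f.inner_map_map x (f.symm t)
    rw [LinearIsometryEquiv.apply_symm_apply] at this
    rw [this]
  rw [h1, charFun_multivariateGaussian hS, charFun_multivariateGaussian hS]
  congr 2
  · simp
  congr 2
  have h2 : ∀ i, (f.symm t).ofLp i = t.ofLp (π i) := fun i => by
    rw [hf]
    simp [LinearIsometryEquiv.piLpCongrLeft_symm, LinearIsometryEquiv.piLpCongrLeft_apply]
  simp only [dotProduct, Matrix.mulVec, h2]
  have h4 : ∀ i, ∑ j, S i j * t.ofLp (π j) = ∑ j, S (π i) j * t.ofLp j := by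
    intro i
    rw [← Equiv.sum_comp (show ι ≃ ι from π) (fun j => S (π i) j * t.ofLp j)]
    exact sum_congr rfl (fun j _ => by rw [← hπ i j])
  simp only [h4]
  exact Equiv.sum_comp (show ι ≃ ι from π) (fun i => t.ofLp i * ∑ j, S i j * t.ofLp j)

end Pool.Agent.Lib.MP_8d8c46_lc.EL
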