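import Pool.Agent.Lib.MP_8d8c46_lc.Mg.G023

/-!
The level inequality with explicit constants.
-/

set_option autoImplicit false
set_option linter.unusedSectionVars false

open scoped Classical
open Finset

namespace Pool.Agent.Lib.MP_8d8c46_lc.EL

section
variable {U A : Type} [Fintype U] [Fintype A] [Nonempty A]

theorem hyper_explicit {n : ℕ} (i k : ℕ) {f : (Fin n → A) → ℝ} (hf : Deg k f) :
    avg (fun x => f x ^ (2 ^ (i + 1))) ≤
      (4 * (Fintype.card A : ℝ)) ^ (i * 2 ^ i * k) * (avg (fun x => f x ^ 2)) ^ (2 ^ i) := by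
  induction i with
  | zero => simp
  | succ i ih =>
    have hq : (1 : ℝ) ≤ Fintype.card A := by exact_mod_cast Fintype.card_pos
    have h1 := bonami n (k * 2 ^ i) _ (hf.pow (2 ^ i))
    have e1 : ∀ x, (f x ^ 2 ^ i) ^ 4 = f x ^ 2 ^ (i + 1 + 1) := by
      intro x; rw [← pow_mul]; congr 1; rw [pow_succ, pow_succ]; ring
    have e2 : ∀ x, (f x ^ 2 ^ i) ^ 2 = f x ^ 2 ^ (i + 1) := by
      intro x; rw [← pow_mul, pow_succ]
    simp only [e1, e2] at h1
    refine h1.trans ?_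
    have h3 : 0 ≤ avg (fun x => f x ^ 2 ^ (i + 1)) := by
      refine avg_nonneg (fun x => ?_)
      have : Even (2 ^ (i + 1)) := by rw [pow_succ]; exact even_two.mul_left _
      exact this.pow_nonneg _
    calc (4 * (Fintype.card A : ℝ)) ^ (2 * (k * 2 ^ i)) * avg (fun x => f x ^ 2 ^ (i + 1)) ^ 2
        ≤ (4 * (Fintype.card A : ℝ)) ^ (2 * (k * 2 ^ i)) *
          ((4 * (Fintype.card A : ℝ)) ^ (i * 2 ^ i * k) * avg (fun x => f x ^ 2) ^ 2 ^ i) ^ 2 := by
          refine mul_le_mul_of_nonneg_left (pow_le_pow_left₀ h3 ih 2) (by positivity)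
      _ = _ := by
          generalize 4 * (Fintype.card A : ℝ) = B
          generalize avg (fun x => f x ^ 2) = Z
          rw [mul_pow, ← pow_mul, ← pow_mul, ← mul_assoc, ← pow_add, pow_succ 2 i]
          congr 2
          ring

/-- The same for functions on an arbitrary finite product that are sums of functions of at most
`k` coordinates. -/
theorem hyper_sum (i k : ℕ) (𝒮 : Finset (Finset U)) (h𝒮 : ∀ T ∈ 𝒮, T.card ≤ k)
    (F : Finset U → (U → A) → ℝ) (hF : ∀ T ∈ 𝒮, DepOn T (F T)) :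
    avg (fun x => (∑ T ∈ 𝒮, F T x) ^ (2 ^ (i + 1))) ≤
      (4 * (Fintype.card A : ℝ)) ^ (i * 2 ^ i * k) *
        (avg (fun x => (∑ T ∈ 𝒮, F T x) ^ 2)) ^ (2 ^ i) := by
  obtain ⟨n, hn⟩ : ∃ n, n = Fintype.card U := ⟨_, rfl⟩
  let e : U ≃ Fin n := (Fintype.equivFin U).trans (finCongr hn.symm)
  let φ : (Fin n → A) ≃ (U → A) := Equiv.arrowCongr e.symm (Equiv.refl A)
  have hφ : ∀ (y : Fin n → A) (u : U), φ y u = y (e u) := fun _ _ => rfl
  have hd : Deg k (fun y : Fin n → A => ∑ T ∈ 𝒮, F T (φ y)) := by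
    have h1 : (fun y : Fin n → A => ∑ T ∈ 𝒮, F T (φ y)) =
        ∑ T ∈ 𝒮, (fun y : Fin n → A => F T (φ y)) := by
      funext y; rw [Finset.sum_apply]
    unfold Deg
    rw [h1]
    refine Submodule.sum_mem _ (fun T hT => Submodule.subset_span ⟨T.map e.toEmbedding, ?_, ?_⟩)
    · rw [card_map]; exact h𝒮 T hT
    · intro x y hxy
      refine hF T hT _ _ (fun u hu => ?_)
      rw [hφ, hφ]
      exact hxy _ (mem_map.2 ⟨u, hu, rfl⟩)
  have h := hyper_explicit i k hd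
  have e1 := avg_equiv φ (fun x => (∑ T ∈ 𝒮, F T x) ^ (2 ^ (i + 1)))
  have e2 := avg_equiv φ (fun x => (∑ T ∈ 𝒮, F T x) ^ 2)
  rw [e1, e2] at h
  exact h

/-- The level inequality. -/
theorem level_bound {g : (U → A) → ℝ} (hg : ∀ x, 0 ≤ g x) {M : ℝ} (hM : ∀ x, g x ≤ M) (i k : ℕ)
    (𝒮 : Finset (Finset U)) (h𝒮 : ∀ T ∈ 𝒮, T.card ≤ k) :
    (∑ T ∈ 𝒮, nr g T) ^ (2 ^ i) ≤
      (avg g) ^ (2 * 2 ^ i - 1) * M * (4 * (Fintype.card A : ℝ)) ^ (i * 2 ^ i * k) := by
  set W := ∑ T ∈ 𝒮, nr g T with hW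
  have hW0 : 0 ≤ W := sum_nonneg (fun T _ => nr_nonneg g T)
  have hx : Nonempty (U → A) := inferInstance
  obtain ⟨x₀⟩ := hx
  have hM0 : 0 ≤ M := (hg x₀).trans (hM x₀)
  have ha0 : 0 ≤ avg g := avg_nonneg hg
  have hpos : 0 < 2 ^ i := by positivity
  rcases ha0.eq_or_lt with ha | ha
  · -- `g` vanishes
    have h1 : ∀ x, g x = 0 := by
      have h2 : ∑ x, g x = 0 := by
        rw [← card_mul_avg, ← ha, mul_zero]
      rw [sum_eq_zero_iff_of_nonneg (fun x _ => hg x)] at h2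
      exact fun x => h2 x (mem_univ x)
    have h3 : W = 0 := by
      rw [hW, ← avg_mul_lv g 𝒮]
      have : (fun x => g x * lv g 𝒮 x) = fun _ => 0 := by
        funext x; rw [h1 x, zero_mul]
      rw [this]
      exact avg_const 0
    rw [h3, zero_pow hpos.ne']
    positivity
  · set a := avg g with hadef
    set f := lv g 𝒮 with hf
    have e1 : avg (fun x => f x ^ 2) = W := avg_lv_sq g 𝒮
    have e2 : avg (fun x => g x * f x) = W := avg_mul_lv g 𝒮
    have h3 : avg (fun x => f x ^ (2 ^ (i + 1))) ≤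
        (4 * (Fintype.card A : ℝ)) ^ (i * 2 ^ i * k) * W ^ (2 ^ i) := by
      have := hyper_sum i k 𝒮 h𝒮 (fun T => es g T) (fun T _ => es_dep g T)
      rw [← e1]
      exact this
    have hev : Even (2 ^ (i + 1)) := by
      rw [pow_succ]; exact even_two.mul_left _
    have h4 := jensen (g := fun x => a⁻¹ * g x) (fun x => mul_nonneg (inv_pos.2 ha).le (hg x))
      (by rw [avg_const_mul]; exact inv_mul_cancel₀ ha.ne') f hev
    have e3 : avg (fun x => a⁻¹ * g x * f x) = a⁻¹ * W := by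
      rw [← e2, ← avg_const_mul]
      congr 1; funext x; ring
    have e4 : avg (fun x => a⁻¹ * g x * f x ^ 2 ^ (i + 1)) ≤
        a⁻¹ * (M * avg (fun x => f x ^ (2 ^ (i + 1)))) := by
      rw [← avg_const_mul, ← avg_const_mul]
      refine avg_mono (fun x => ?_)
      rw [mul_assoc]
      refine mul_le_mul_of_nonneg_left ?_ (inv_pos.2 ha).le
      exact mul_le_mul_of_nonneg_right (hM x) (hev.pow_nonneg _)
    rw [e3] at h4
    set Q := (4 * (Fintype.card A : ℝ)) ^ (i * 2 ^ i * k) with hQ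
    have hQ0 : 0 ≤ Q := by rw [hQ]; positivity
    have h5 : (a⁻¹ * W) ^ (2 ^ (i + 1)) ≤ a⁻¹ * (M * (Q * W ^ (2 ^ i))) := by
      refine (h4.trans e4).trans ?_
      refine mul_le_mul_of_nonneg_left ?_ (inv_pos.2 ha).le
      exact mul_le_mul_of_nonneg_left h3 hM0
    have h6 : W ^ (2 ^ (i + 1)) ≤ a ^ (2 * 2 ^ i - 1) * M * Q * W ^ (2 ^ i) := by
      have h7 : a ^ (2 ^ (i + 1)) * (a⁻¹ * W) ^ (2 ^ (i + 1)) = W ^ (2 ^ (i + 1)) := by
        rw [← mul_pow, ← mul_assoc, mul_inv_cancel₀ ha.ne', one_mul]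
      have h8 : a ^ (2 ^ (i + 1)) = a ^ (2 * 2 ^ i - 1) * a := by
        rw [← pow_succ]
        congr 1
        rw [pow_succ]
        omega
      rw [← h7]
      calc a ^ (2 ^ (i + 1)) * (a⁻¹ * W) ^ (2 ^ (i + 1))
          ≤ a ^ (2 ^ (i + 1)) * (a⁻¹ * (M * (Q * W ^ (2 ^ i)))) :=
            mul_le_mul_of_nonneg_left h5 (by positivity)
        _ = a ^ (2 * 2 ^ i - 1) * M * Q * W ^ (2 ^ i) := by
            rw [h8]; field_simp
    rcases hW0.eq_or_lt with hz | hWp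
    · rw [← hz, zero_pow hpos.ne']
      positivity
    · have hp : 0 < W ^ (2 ^ i) := pow_pos hWp _
      have h7 : W ^ (2 ^ (i + 1)) = W ^ (2 ^ i) * W ^ (2 ^ i) := by
        rw [← pow_add]; congr 1; rw [pow_succ]; ring
      rw [h7] at h6
      exact le_of_mul_le_mul_right h6 hp

end

end Pool.Agent.Lib.MP_8d8c46_lc.EL
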